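import Mathlib
import Pool.Agent.H457HC.Defs

open Finset Real

namespace Pool.Agent.H457HC

noncomputable section

/-- the normalised sum -/
def XX (n : ℕ) (x : Cube n) : ℝ := (∑ i, (((x i : ℤˣ) : ℤ) : ℝ)) / Real.sqrt n

lemma card_cube (n : ℕ) : Fintype.card (Cube n) = 2 ^ n := by
  simp [Cube]

lemma sum_prod_cube {R : Type*} [CommRing R] (n : ℕ) (g : ℤˣ → R) :
    ∑ x : Cube n, ∏ i, g (x i) = (g 1 + g (-1)) ^ n := by
  have h := Finset.prod_univ_sum (fun _ : Fin n => (Finset.univ : Finset ℤˣ)) (fun _ ε => g ε)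
  rw [Fintype.piFinset_univ] at h
  rw [← h]
  have h2 : ∑ j : ℤˣ, g j = g 1 + g (-1) := by
    rw [UnitsInt.univ, Finset.sum_pair (by decide)]
  simp [h2]

lemma mean_mono {n : ℕ} {f g : Cube n → ℝ} (h : ∀ x, f x ≤ g x) : mean f ≤ mean g := by
  unfold mean
  apply div_le_div_of_nonneg_right _ (by positivity)
  exact Finset.sum_le_sum fun x _ => h x

lemma mean_add {n : ℕ} (f g : Cube n → ℝ) : mean (fun x => f x + g x) = mean f + mean g := by
  unfold mean
  rw [Finset.sum_add_distrib, add_div]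

lemma mean_const_mul {n : ℕ} (c : ℝ) (f : Cube n → ℝ) : mean (fun x => c * f x) = c * mean f := by
  unfold mean
  rw [← Finset.mul_sum, mul_div_assoc]

lemma mean_sum {n : ℕ} {ι : Type*} (T : Finset ι) (f : ι → Cube n → ℝ) :
    mean (fun x => ∑ i ∈ T, f i x) = ∑ i ∈ T, mean (f i) := by
  unfold mean
  rw [Finset.sum_comm, Finset.sum_div]

lemma mean_exp (n : ℕ) (s : ℝ) : mean (fun x : Cube n => Real.exp (s * XX n x)) =
    Real.cosh (s / Real.sqrt n) ^ n := by
  unfold mean
  have h : ∀ x : Cube n, Real.exp (s * XX n x) =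
      ∏ i, Real.exp ((s / Real.sqrt n) * (((x i : ℤˣ) : ℤ) : ℝ)) := by
    intro x
    rw [← Real.exp_sum]
    congr 1
    unfold XX
    rw [Finset.sum_div, Finset.mul_sum]
    apply Finset.sum_congr rfl
    intro i _
    ring
  simp only [h]
  rw [sum_prod_cube n (fun ε => Real.exp ((s / Real.sqrt n) * ((ε : ℤ) : ℝ)))]
  rw [← div_pow, Real.cosh_eq]
  simp

lemma mean_nonneg {n : ℕ} {g : Cube n → ℝ} (h : ∀ x, 0 ≤ g x) : 0 ≤ mean g := by
  unfold mean
  apply div_nonneg (Finset.sum_nonneg fun x _ => h x) (by positivity)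

lemma unit_mul_self (u : ℤˣ) : (((u : ℤˣ) : ℤ) : ℝ) * (((u : ℤˣ) : ℤ) : ℝ) = 1 := by
  have : u * u = 1 := Int.units_mul_self u
  have h2 : ((u : ℤ)) * (u : ℤ) = 1 := by
    rw [← Units.val_mul, this]; rfl
  exact_mod_cast h2

lemma prod_one_add {n : ℕ} (x y : Cube n) :
    ∏ i, (1 + (((x i : ℤˣ) : ℤ) : ℝ) * (((y i : ℤˣ) : ℤ) : ℝ)) = if x = y then 2 ^ n else 0 := by
  split_ifs with h
  · subst h
    simp only [unit_mul_self]
    norm_num
  · obtain ⟨i, hi⟩ := Function.ne_iff.1 h
    apply Finset.prod_eq_zero (Finset.mem_univ i)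
    rcases Int.units_eq_one_or (x i) with h1 | h1 <;> rcases Int.units_eq_one_or (y i) with h2 | h2
    · exact absurd (h1.trans h2.symm) hi
    · rw [h1, h2]; norm_num
    · rw [h1, h2]; norm_num
    · exact absurd (h1.trans h2.symm) hi

lemma sum_walsh_mul {n : ℕ} (x y : Cube n) :
    ∑ S : Finset (Fin n), walsh S x * walsh S y = if x = y then 2 ^ n else 0 := by
  rw [← prod_one_add]
  have := Finset.prod_one_add (s := (Finset.univ : Finset (Fin n)))
    (f := fun i => (((x i : ℤˣ) : ℤ) : ℝ) * (((y i : ℤˣ) : ℤ) : ℝ))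
  rw [this]
  rw [Finset.powerset_univ]
  apply Finset.sum_congr rfl
  intro S _
  unfold walsh
  rw [Finset.prod_mul_distrib]

/-- Fourier inversion. -/
lemma fourier_inversion {n : ℕ} (f : Cube n → ℝ) (x : Cube n) :
    f x = ∑ S : Finset (Fin n), fourier f S * walsh S x := by
  have h1 : ∑ S : Finset (Fin n), fourier f S * walsh S x =
      (∑ y, f y * ∑ S : Finset (Fin n), walsh S y * walsh S x) / 2 ^ n := by
    unfold fourier mean
    rw [Finset.sum_div]
    simp only [Finset.mul_sum, Finset.sum_div, Finset.sum_mul]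
    rw [Finset.sum_comm]
    apply Finset.sum_congr rfl
    intro y _
    apply Finset.sum_congr rfl
    intro S _
    ring
  rw [h1]
  simp only [sum_walsh_mul]
  simp

lemma card_le_degree {n : ℕ} {f : Cube n → ℝ} {S : Finset (Fin n)} (h : fourier f S ≠ 0) :
    S.card ≤ degree f := by
  classical
  unfold degree
  exact Finset.le_sup (f := Finset.card) (Finset.mem_filter.2 ⟨Finset.mem_univ _, h⟩)

/-- functions with vanishing coefficients above level `k` -/
def LowDeg {n : ℕ} (k : ℕ) (g : Cube n → ℝ) : Prop :=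
  ∀ S : Finset (Fin n), k < S.card → fourier g S = 0

lemma LowDeg.mono {n : ℕ} {k l : ℕ} (hkl : k ≤ l) {g : Cube n → ℝ} (h : LowDeg k g) : LowDeg l g :=
  fun S hS => h S (lt_of_le_of_lt hkl hS)

lemma LowDeg.degree_le {n : ℕ} {k : ℕ} {g : Cube n → ℝ} (h : LowDeg k g) : degree g ≤ k := by
  classical
  unfold degree
  apply Finset.sup_le
  intro S hS
  rw [Finset.mem_filter] at hS
  by_contra hc
  exact hS.2 (h S (by omega))

lemma LowDeg.add {n : ℕ} {k : ℕ} {g g' : Cube n → ℝ} (h : LowDeg k g) (h' : LowDeg k g') :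
    LowDeg k (fun x => g x + g' x) := by
  intro S hS
  have h1 := h S hS
  have h2 := h' S hS
  unfold fourier at *
  simp only [add_mul]
  rw [mean_add, h1, h2, add_zero]

lemma LowDeg.const_mul {n : ℕ} {k : ℕ} {g : Cube n → ℝ} (h : LowDeg k g) (c : ℝ) :
    LowDeg k (fun x => c * g x) := by
  intro S hS
  have h1 := h S hS
  unfold fourier at *
  simp only [mul_assoc]
  rw [mean_const_mul, h1, mul_zero]

lemma LowDeg.sum {n : ℕ} {k : ℕ} {ι : Type*} (T : Finset ι) {g : ι → Cube n → ℝ}
    (h : ∀ i ∈ T, LowDeg k (g i)) : LowDeg k (fun x => ∑ i ∈ T, g i x) := by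
  intro S hS
  unfold fourier
  simp only [Finset.sum_mul]
  rw [mean_sum]
  apply Finset.sum_eq_zero
  intro i hi
  exact h i hi S hS

lemma mean_walsh {n : ℕ} {S : Finset (Fin n)} (hS : S.Nonempty) : mean (walsh S) = 0 := by
  classical
  obtain ⟨i, hi⟩ := hS
  unfold mean
  rw [div_eq_zero_iff]
  left
  -- flip coordinate i
  have h1 : ∑ x : Cube n, walsh S x = ∑ x : Cube n, walsh S (Function.update x i (-(x i))) := by
    let e : Cube n ≃ Cube n := Function.Involutive.toPerm (fun x => Function.update x i (-(x i))) (by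
      intro x
      simp)
    exact (e.sum_comp (fun x => walsh S x)).symm
  have h2 : ∀ x : Cube n, walsh S (Function.update x i (-(x i))) = - walsh S x := by
    intro x
    unfold walsh
    rw [← Finset.mul_prod_erase S _ hi, ← Finset.mul_prod_erase S (fun j => (((x j : ℤˣ) : ℤ) : ℝ)) hi]
    have : ∏ j ∈ S.erase i, ((((Function.update x i (-(x i))) j : ℤˣ) : ℤ) : ℝ) =
        ∏ j ∈ S.erase i, (((x j : ℤˣ) : ℤ) : ℝ) := by
      apply Finset.prod_congr rfl
      intro j hj
      rw [Function.update_of_ne (Finset.ne_of_mem_erase hj)]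
    rw [this]
    simp
  simp only [h2, Finset.sum_neg_distrib] at h1
  linarith

lemma lowDeg_one {n : ℕ} : LowDeg (n := n) 0 (fun _ => 1) := by
  intro S hS
  unfold fourier
  simp only [one_mul]
  exact mean_walsh (Finset.card_pos.1 hS)

lemma LowDeg.coord_mul {n : ℕ} {k : ℕ} {g : Cube n → ℝ} (h : LowDeg k g) (i : Fin n) :
    LowDeg (k + 1) (fun x => (((x i : ℤˣ) : ℤ) : ℝ) * g x) := by
  classical
  intro S hS
  by_cases hi : i ∈ S
  · have h1 := h (S.erase i) (by rw [Finset.card_erase_of_mem hi]; omega)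
    unfold fourier at *
    rw [← h1]
    congr 1
    funext x
    unfold walsh
    rw [← Finset.mul_prod_erase S _ hi]
    linear_combination (g x * ∏ j ∈ S.erase i, (((x j : ℤˣ) : ℤ) : ℝ)) * unit_mul_self (x i)
  · have h1 := h (insert i S) (by rw [Finset.card_insert_of_notMem hi]; omega)
    unfold fourier at *
    rw [← h1]
    congr 1
    funext x
    unfold walsh
    rw [Finset.prod_insert hi]
    ring

lemma lowDeg_pow (n k : ℕ) : LowDeg (n := n) k (fun x => XX n x ^ k) := by
  induction k with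
  | zero => simpa using lowDeg_one
  | succ k ih =>
    have h1 : (fun x : Cube n => XX n x ^ (k + 1)) =
        fun x => ∑ i, (1 / Real.sqrt n) * ((((x i : ℤˣ) : ℤ) : ℝ) * XX n x ^ k) := by
      funext x
      rw [← Finset.mul_sum, ← Finset.sum_mul, pow_succ]
      have : XX n x = (1 / Real.sqrt n) * ∑ i, (((x i : ℤˣ) : ℤ) : ℝ) := by
        unfold XX; ring
      conv_lhs => rw [mul_comm, this]
      rw [mul_assoc]
      conv_rhs => rw [this]
    rw [h1]
    exact LowDeg.sum _ fun i _ => (ih.coord_mul i).const_mul _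

lemma degree_poly_le (n : ℕ) (p : Polynomial ℝ) : degree (fun x : Cube n => p.eval (XX n x)) ≤ p.natDegree := by
  apply LowDeg.degree_le
  have h : (fun x : Cube n => p.eval (XX n x)) =
      fun x => ∑ k ∈ Finset.range (p.natDegree + 1), p.coeff k * XX n x ^ k := by
    funext x
    rw [Polynomial.eval_eq_sum_range]
  rw [h]
  apply LowDeg.sum
  intro k hk
  exact ((lowDeg_pow n k).const_mul _).mono (by rw [Finset.mem_range] at hk; omega)

end

end Pool.Agent.H457HC
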