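import Mathlib

namespace Pool.Agent.H457HC

lemma artanh_ineq {m t : ℝ} (hm0 : 0 < m) (hm1 : m < 1) (ht0 : 0 ≤ t) (ht1 : t < 1) :
    Real.log (1 + m * t) - Real.log (1 - m * t) ≤ m * (Real.log (1 + t) - Real.log (1 - t)) := by
  have hmt : m * t < 1 := by nlinarith
  have h1 := Real.hasSum_log_sub_log_of_abs_lt_one (x := m * t) (by rw [abs_of_nonneg (by positivity)]; exact hmt)
  have h2 := (Real.hasSum_log_sub_log_of_abs_lt_one (x := t) (by rw [abs_of_nonneg ht0]; exact ht1)).mul_left m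
  apply hasSum_le _ h1 h2
  intro k
  have h3 : (m * t) ^ (2 * k + 1) ≤ m * t ^ (2 * k + 1) := by
    rw [mul_pow]
    apply mul_le_mul_of_nonneg_right _ (by positivity)
    calc m ^ (2 * k + 1) ≤ m ^ 1 := pow_le_pow_of_le_one hm0.le hm1.le (by omega)
      _ = m := pow_one m
  have h4 : (0:ℝ) ≤ 2 * (1 / (2 * (k:ℝ) + 1)) := by positivity
  calc 2 * (1 / (2 * (k:ℝ) + 1)) * (m * t) ^ (2 * k + 1) ≤ 2 * (1 / (2 * (k:ℝ) + 1)) * (m * t ^ (2 * k + 1)) :=
        mul_le_mul_of_nonneg_left h3 h4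
    _ = m * (2 * (1 / (2 * (k:ℝ) + 1)) * t ^ (2 * k + 1)) := by ring

lemma F_ge {m t : ℝ} (hm0 : 0 < m) (hm1 : m < 1) (ht0 : 0 ≤ t) (ht1 : t ≤ 1) :
    2 ≤ ((1 + t) / (1 + m * t)) ^ ((1 + m) / (1 - m)) + ((1 - t) / (1 - m * t)) ^ ((1 + m) / (1 - m)) := by
  set R := (1 + m) / (1 - m) with hR
  have h1m : 0 < 1 - m := by linarith
  have hR1 : 1 ≤ R := by rw [hR, le_div_iff₀ h1m]; linarith
  have hR0 : 0 < R := by linarith
  have hd1 : ∀ x ∈ Set.Icc (0:ℝ) 1, 1 + m * x ≠ 0 := by
    intro x hx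
    have := mul_nonneg hm0.le hx.1
    linarith
  have hd2' : ∀ x ∈ Set.Icc (0:ℝ) 1, 0 < 1 - m * x := by
    intro x hx
    have : m * x ≤ m := by nlinarith [hx.1, hx.2]
    linarith
  have hd2 : ∀ x ∈ Set.Icc (0:ℝ) 1, 1 - m * x ≠ 0 := fun x hx => (hd2' x hx).ne'
  have hmono : MonotoneOn (fun x : ℝ => ((1 + x) / (1 + m * x)) ^ R + ((1 - x) / (1 - m * x)) ^ R) (Set.Icc 0 1) := by
    have hD : ∀ x ∈ Set.Ioo (0:ℝ) 1, HasDerivAt (fun x : ℝ => ((1 + x) / (1 + m * x)) ^ R + ((1 - x) / (1 - m * x)) ^ R)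
        ((1 * (1 + m * x) - (1 + x) * m) / (1 + m * x) ^ 2 * R * ((1 + x) / (1 + m * x)) ^ (R - 1) +
          ((-1) * (1 - m * x) - (1 - x) * (-m)) / (1 - m * x) ^ 2 * R * ((1 - x) / (1 - m * x)) ^ (R - 1)) x := by
      intro x hx
      have hxI : x ∈ Set.Icc (0:ℝ) 1 := ⟨hx.1.le, hx.2.le⟩
      have a1 : HasDerivAt (fun x : ℝ => 1 + x) 1 x := by simpa using (hasDerivAt_id x).const_add 1
      have a2 : HasDerivAt (fun x : ℝ => 1 + m * x) m x := by simpa using ((hasDerivAt_id x).const_mul m).const_add 1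
      have a3 : HasDerivAt (fun x : ℝ => 1 - x) (-1) x := by simpa using (hasDerivAt_id x).const_sub 1
      have a4 : HasDerivAt (fun x : ℝ => 1 - m * x) (-m) x := by simpa using ((hasDerivAt_id x).const_mul m).const_sub 1
      have b1 := a1.div a2 (hd1 x hxI)
      have b2 := a3.div a4 (hd2 x hxI)
      exact (b1.rpow_const (Or.inr hR1)).add (b2.rpow_const (Or.inr hR1))
    apply monotoneOn_of_deriv_nonneg (convex_Icc 0 1)
    · apply ContinuousOn.add
      · apply ContinuousOn.rpow_const _ (fun x _ => Or.inr hR0.le)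
        exact ContinuousOn.div (by fun_prop) (by fun_prop) hd1
      · apply ContinuousOn.rpow_const _ (fun x _ => Or.inr hR0.le)
        exact ContinuousOn.div (by fun_prop) (by fun_prop) hd2
    · rw [interior_Icc]
      intro x hx
      exact (hD x hx).differentiableAt.differentiableWithinAt
    · rw [interior_Icc]
      intro x hx
      rw [(hD x hx).deriv]
      have hxI : x ∈ Set.Icc (0:ℝ) 1 := ⟨hx.1.le, hx.2.le⟩
      have p1 : 0 < 1 + x := by linarith [hx.1]
      have p2 : 0 < 1 - x := by linarith [hx.2]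
      have p3 : 0 < 1 + m * x := by have := mul_nonneg hm0.le hx.1.le; linarith
      have p4 : 0 < 1 - m * x := hd2' x hxI
      have e1 : (1 * (1 + m * x) - (1 + x) * m) = 1 - m := by ring
      have e2 : ((-1) * (1 - m * x) - (1 - x) * (-m)) = -(1 - m) := by ring
      rw [e1, e2]
      have key : ((1 - x) / (1 - m * x)) ^ (R - 1) / (1 - m * x) ^ 2 ≤ ((1 + x) / (1 + m * x)) ^ (R - 1) / (1 + m * x) ^ 2 := by
        have l1 : ((1 - x) / (1 - m * x)) ^ (R - 1) / (1 - m * x) ^ 2 =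
            Real.exp ((R - 1) * Real.log (1 - x) - (R + 1) * Real.log (1 - m * x)) := by
          rw [Real.rpow_def_of_pos (div_pos p2 p4), Real.log_div p2.ne' p4.ne',
            ← Real.exp_log (pow_pos p4 2), ← Real.exp_sub, Real.log_pow]
          congr 1; push_cast; ring
        have l2 : ((1 + x) / (1 + m * x)) ^ (R - 1) / (1 + m * x) ^ 2 =
            Real.exp ((R - 1) * Real.log (1 + x) - (R + 1) * Real.log (1 + m * x)) := by
          rw [Real.rpow_def_of_pos (div_pos p1 p3), Real.log_div p1.ne' p3.ne',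
            ← Real.exp_log (pow_pos p3 2), ← Real.exp_sub, Real.log_pow]
          congr 1; push_cast; ring
        rw [l1, l2]
        apply Real.exp_le_exp.2
        have hL := artanh_ineq hm0 hm1 hx.1.le hx.2
        have hR2 : R + 1 = 2 / (1 - m) := by rw [hR]; field_simp; ring
        have hR3 : R - 1 = m * (2 / (1 - m)) := by rw [hR]; field_simp; ring
        rw [hR2, hR3]
        have h2 : 0 < 2 / (1 - m) := by positivity
        have h3 := mul_le_mul_of_nonneg_left hL h2.le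
        nlinarith [h3]
      have h5 : 0 ≤ (1 - m) * R := by positivity
      have h6 := mul_le_mul_of_nonneg_left key h5
      have e3 : (1 - m) / (1 + m * x) ^ 2 * R * ((1 + x) / (1 + m * x)) ^ (R - 1) +
          -(1 - m) / (1 - m * x) ^ 2 * R * ((1 - x) / (1 - m * x)) ^ (R - 1) =
          (1 - m) * R * (((1 + x) / (1 + m * x)) ^ (R - 1) / (1 + m * x) ^ 2) -
          (1 - m) * R * (((1 - x) / (1 - m * x)) ^ (R - 1) / (1 - m * x) ^ 2) := by ring
      rw [e3]
      linarith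
  have h := hmono (Set.left_mem_Icc.2 zero_le_one) ⟨ht0, ht1⟩ ht0
  simp only [add_zero, mul_zero, sub_zero, div_one, Real.one_rpow] at h
  linarith

/-- The two-point scalar lemma. -/
lemma scalar_lemma {r m X Y T : ℝ} (hr : 1 < r) (hm : m = 1 / (2 * r - 1)) (hX : 0 ≤ X) (hY : 0 ≤ Y)
    (h : ∀ τ : ℝ, 0 ≤ τ → τ ≤ 1 → (1 + τ) / (1 + m * τ) * X + (1 - τ) / (1 - m * τ) * Y ≤ 2 * T)
    (hXY : Y ≤ X) : (X ^ r + Y ^ r) / 2 ≤ T ^ r := by
  have hr0 : 0 < r := by linarith
  have h2r : 0 < 2 * r - 1 := by linarith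
  have hm0 : 0 < m := by rw [hm]; positivity
  have hm1 : m < 1 := by rw [hm, div_lt_one h2r]; linarith
  have hT : 0 ≤ T := by
    have := h 0 le_rfl zero_le_one
    simp at this
    linarith
  rcases hX.eq_or_lt with h0 | h0
  · have hY0 : Y = 0 := le_antisymm (by rw [h0]; exact hXY) hY
    rw [← h0, hY0, Real.zero_rpow hr0.ne']
    simp only [add_zero, zero_div]
    positivity
  have hr1 : 0 < r - 1 := by linarith
  obtain ⟨τ, t0, t1, he⟩ : ∃ τ : ℝ, 0 ≤ τ ∧ τ ≤ 1 ∧
      (1 - τ) / (1 - m * τ) * X ^ (r - 1) = (1 + τ) / (1 + m * τ) * Y ^ (r - 1) := by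
    let φ : ℝ → ℝ := fun τ => (1 - τ) / (1 - m * τ) * X ^ (r - 1) - (1 + τ) / (1 + m * τ) * Y ^ (r - 1)
    have hc : ContinuousOn φ (Set.Icc 0 1) := by
      apply ContinuousOn.sub
      · apply ContinuousOn.mul _ continuousOn_const
        apply ContinuousOn.div (by fun_prop) (by fun_prop)
        intro x hx
        have : m * x ≤ m := by nlinarith [hx.1, hx.2]
        linarith
      · apply ContinuousOn.mul _ continuousOn_const
        apply ContinuousOn.div (by fun_prop) (by fun_prop)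
        intro x hx
        have := mul_nonneg hm0.le hx.1
        linarith
    have h2 := intermediate_value_Icc' (zero_le_one) hc
    have h3 : (0 : ℝ) ∈ Set.Icc (φ 1) (φ 0) := by
      constructor
      · simp only [φ, sub_self, zero_div, zero_mul, zero_sub]
        have : 0 ≤ (1 + 1) / (1 + m * 1) * Y ^ (r - 1) := by positivity
        linarith
      · simp only [φ, sub_zero, mul_zero, add_zero, div_one, one_mul]
        have := Real.rpow_le_rpow hY hXY hr1.le
        linarith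
    obtain ⟨τ, hτ, he⟩ := h2 h3
    refine ⟨τ, hτ.1, hτ.2, ?_⟩
    simp only [φ] at he
    linarith
  have h2 := h τ t0 t1
  have hF := F_ge hm0 hm1 t0 t1
  have hRe : (1 + m) / (1 - m) = r / (r - 1) := by
    rw [hm]
    have : 2 * r - 1 ≠ 0 := h2r.ne'
    have h5 : 2 * r - 1 - 1 ≠ 0 := by
      have : 2 * r - 1 - 1 = 2 * (r - 1) := by ring
      rw [this]; positivity
    field_simp
    ring
  rw [hRe] at hF
  set cp := (1 + τ) / (1 + m * τ) with hcp
  set cm := (1 - τ) / (1 - m * τ) with hcm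
  have hcp0 : 0 < cp := by rw [hcp]; have := mul_nonneg hm0.le t0; positivity
  have hXr : 0 < X ^ (r - 1) := Real.rpow_pos_of_pos h0 _
  set lam := cp / X ^ (r - 1) with hlam
  have hlam0 : 0 < lam := by positivity
  have c1 : cp = lam * X ^ (r - 1) := by rw [hlam]; field_simp
  have c2 : cm = lam * Y ^ (r - 1) := by
    rw [hlam, div_mul_eq_mul_div, eq_div_iff hXr.ne']; exact he
  have x1 : X ^ (r - 1) * X = X ^ r := by
    rw [Real.rpow_sub_one h0.ne']; field_simp
  have y1 : Y ^ (r - 1) * Y = Y ^ r := by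
    rcases hY.eq_or_lt with hy | hy
    · rw [← hy, mul_zero, Real.zero_rpow hr0.ne']
    · rw [Real.rpow_sub_one hy.ne']; field_simp
  have x2 : (X ^ (r - 1)) ^ (r / (r - 1)) = X ^ r := by
    rw [← Real.rpow_mul hX]; congr 1; field_simp
  have y2 : (Y ^ (r - 1)) ^ (r / (r - 1)) = Y ^ r := by
    rw [← Real.rpow_mul hY]; congr 1; field_simp
  set S := (X ^ r + Y ^ r) / 2 with hS
  have hS0 : 0 < S := by
    have : 0 < X ^ r := Real.rpow_pos_of_pos h0 _
    have := Real.rpow_nonneg hY r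
    rw [hS]; positivity
  have k1 : lam * S ≤ T := by
    rw [c1, c2] at h2
    have : lam * X ^ (r - 1) * X + lam * Y ^ (r - 1) * Y = 2 * (lam * S) := by
      rw [mul_assoc, mul_assoc, x1, y1, hS]; ring
    linarith
  have k2 : 1 ≤ lam ^ (r / (r - 1)) * S := by
    rw [c1, c2, Real.mul_rpow hlam0.le hXr.le, Real.mul_rpow hlam0.le (Real.rpow_nonneg hY _), x2, y2] at hF
    rw [hS]; linarith
  have k3 : 1 ≤ lam ^ r * S ^ (r - 1) := by
    have h9 := Real.one_le_rpow k2 hr1.le
    rw [Real.mul_rpow (by positivity) hS0.le, ← Real.rpow_mul hlam0.le] at h9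
    have : r / (r - 1) * (r - 1) = r := by field_simp
    rwa [this] at h9
  have k4 : S ≤ (lam * S) ^ r := by
    rw [Real.mul_rpow hlam0.le hS0.le]
    have : S ^ r = S ^ (r - 1) * S := by rw [Real.rpow_sub_one hS0.ne']; field_simp
    rw [this]
    nlinarith
  exact k4.trans (Real.rpow_le_rpow (by positivity) k1 hr0.le)

end Pool.Agent.H457HC
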