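import Mathlib

open Complex Metric Finset Real

namespace Pool.Agent.H457HC

noncomputable section

/-- The disc algebra. -/
abbrev AA (h : ℂ → ℂ) : Prop := DiffContOnCl ℂ h (ball 0 1)

/-- The Möbius map of the disc sending `0` to `a`. -/
def sg (a : ℝ) (z : ℂ) : ℂ := (z + a) / (1 + a * z)

lemma re_pos {c : ℝ} (hc : |c| < 1) {s : ℂ} (hs : ‖s‖ ≤ 1) : 0 < (1 + (c : ℂ) * s).re := by
  have h1 : |s.re| ≤ 1 := (Complex.abs_re_le_norm s).trans hs
  have h2 : |c * s.re| < 1 := by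
    rw [abs_mul]
    calc |c| * |s.re| ≤ |c| * 1 := mul_le_mul_of_nonneg_left h1 (abs_nonneg _)
      _ < 1 := by linarith
  have h3 := (abs_lt.1 h2).1
  simp only [Complex.add_re, Complex.one_re, Complex.mul_re, Complex.ofReal_re, Complex.ofReal_im, zero_mul,
    sub_zero]
  linarith

lemma one_add_ne {c : ℝ} (hc : |c| < 1) {s : ℂ} (hs : ‖s‖ ≤ 1) : 1 + (c : ℂ) * s ≠ 0 := by
  intro h
  have := re_pos hc hs
  rw [h] at this
  simp at this

lemma normSq_add_real (q : ℝ) (z : ℂ) : ‖z + q‖ ^ 2 = ‖z‖ ^ 2 + 2 * q * z.re + q ^ 2 := by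
  rw [← Complex.normSq_eq_norm_sq, ← Complex.normSq_eq_norm_sq, Complex.normSq_apply, Complex.normSq_apply]
  simp; ring

lemma normSq_one_add (q : ℝ) (z : ℂ) : ‖1 + q * z‖ ^ 2 = 1 + 2 * q * z.re + q ^ 2 * ‖z‖ ^ 2 := by
  rw [← Complex.normSq_eq_norm_sq, ← Complex.normSq_eq_norm_sq, Complex.normSq_apply, Complex.normSq_apply]
  simp; ring

lemma norm_mob_eq {q : ℝ} {z : ℂ} (hz : ‖z‖ = 1) : ‖z + q‖ = ‖1 + q * z‖ := by
  have h1 := normSq_add_real q z
  have h2 := normSq_one_add q z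
  have h3 : ‖z + q‖ ^ 2 = ‖1 + q * z‖ ^ 2 := by
    rw [h1, h2, hz]; ring
  nlinarith [norm_nonneg (z + q), norm_nonneg (1 + q * z)]

lemma norm_mob_lt {q : ℝ} (hq0 : 0 ≤ q) (hq : q < 1) {z : ℂ} (hz : ‖z‖ < 1) : ‖z + q‖ < ‖1 + q * z‖ := by
  have h1 := normSq_add_real q z
  have h2 := normSq_one_add q z
  have h3 : ‖z + q‖ ^ 2 < ‖1 + q * z‖ ^ 2 := by
    rw [h1, h2]
    have : 0 < (1 - q ^ 2) * (1 - ‖z‖ ^ 2) := by
      apply mul_pos
      · nlinarith
      · nlinarith [norm_nonneg z]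
    nlinarith
  exact lt_of_pow_lt_pow_left₀ 2 (norm_nonneg _) h3

variable {a : ℝ}

lemma sg_zero (a : ℝ) : sg a 0 = a := by simp [sg]

lemma abs_lt_one (h0 : 0 < a) (h1 : a < 1) : |a| < 1 := by rwa [abs_of_pos h0]

lemma norm_sg_eq (h0 : 0 < a) (h1 : a < 1) {z : ℂ} (hz : ‖z‖ = 1) : ‖sg a z‖ = 1 := by
  unfold sg
  rw [norm_div]
  have h := norm_mob_eq (q := a) hz
  have h0 : 0 < ‖1 + (a : ℂ) * z‖ := norm_pos_iff.2 (one_add_ne (abs_lt_one h0 h1) hz.le)
  rw [h, div_self h0.ne']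

lemma norm_sg_lt (h0 : 0 < a) (h1 : a < 1) {z : ℂ} (hz : ‖z‖ < 1) : ‖sg a z‖ < 1 := by
  unfold sg
  rw [norm_div]
  have h := norm_mob_lt (q := a) h0.le h1 hz
  have h0 : 0 < ‖1 + (a : ℂ) * z‖ := norm_pos_iff.2 (one_add_ne (abs_lt_one h0 h1) hz.le)
  rw [div_lt_one h0]; exact h

lemma mem_cl {z : ℂ} (hz : z ∈ closure (ball (0:ℂ) 1)) : ‖z‖ ≤ 1 := by
  rw [closure_ball _ one_ne_zero] at hz
  simpa using hz

lemma AA_id : AA (fun z => z) := Differentiable.diffContOnCl differentiable_id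

lemma AA_const (c : ℂ) : AA (fun _ => c) := diffContOnCl_const

lemma AA.mul {f g : ℂ → ℂ} (hf : AA f) (hg : AA g) : AA (fun z => f z * g z) := by
  have := DiffContOnCl.smul hf hg
  simpa [smul_eq_mul] using this

lemma AA.add' {f g : ℂ → ℂ} (hf : AA f) (hg : AA g) : AA (fun z => f z + g z) :=
  DiffContOnCl.add hf hg

lemma AA.sub' {f g : ℂ → ℂ} (hf : AA f) (hg : AA g) : AA (fun z => f z - g z) :=
  DiffContOnCl.sub hf hg

lemma AA.inv' {f : ℂ → ℂ} (hf : AA f) (h : ∀ z, ‖z‖ ≤ 1 → f z ≠ 0) : AA (fun z => (f z)⁻¹) :=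
  DiffContOnCl.inv hf (fun z hz => h z (mem_cl hz))

lemma AA.div' {f g : ℂ → ℂ} (hf : AA f) (hg : AA g) (h : ∀ z, ‖z‖ ≤ 1 → g z ≠ 0) :
    AA (fun z => f z / g z) := by
  simp only [div_eq_mul_inv]
  exact hf.mul (hg.inv' h)

lemma AA.pow' {f : ℂ → ℂ} (hf : AA f) (n : ℕ) : AA (fun z => f z ^ n) := by
  induction n with
  | zero => simpa using AA_const 1
  | succ n ih => simpa [pow_succ] using ih.mul hf

lemma AA_sg (h0 : 0 < a) (h1 : a < 1) : AA (sg a) := by
  unfold sg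
  apply AA.div'
  · exact AA_id.add' (AA_const _)
  · exact (AA_const _).add' ((AA_const _).mul AA_id)
  · intro z hz
    exact one_add_ne (abs_lt_one h0 h1) hz

lemma AA_comp_sg (h0 : 0 < a) (h1 : a < 1) {K : ℂ → ℂ} (hK : AA K) : AA (fun z => K (sg a z)) := by
  have : Set.MapsTo (sg a) (ball 0 1) (ball 0 1) := by
    intro z hz
    simp only [mem_ball, dist_zero_right] at hz ⊢
    exact norm_sg_lt h0 h1 hz
  exact DiffContOnCl.comp hK (AA_sg h0 h1) this

/-- powers of `1 + c s` -/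
lemma AA_cpow {c : ℝ} (hc : |c| < 1) (β : ℝ) : AA (fun s => (1 + (c : ℂ) * s) ^ (β : ℂ)) := by
  constructor
  · intro z hz
    apply DifferentiableAt.differentiableWithinAt
    apply DifferentiableAt.cpow_const
    · fun_prop
    · left
      apply re_pos hc
      simp only [mem_ball, dist_zero_right] at hz
      exact hz.le
  · intro z hz
    apply ContinuousAt.continuousWithinAt
    apply ContinuousAt.cpow
    · fun_prop
    · exact continuousAt_const
    · left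
      exact re_pos hc (mem_cl hz)

/-- dividing a function of the disc algebra with a zero at `0` by `s` -/
lemma AA_dslope {K : ℂ → ℂ} (hK : AA K) : AA (dslope K 0) := by
  have hn : ball (0:ℂ) 1 ∈ nhds (0:ℂ) := ball_mem_nhds _ one_pos
  constructor
  · exact (Complex.differentiableOn_dslope hn).2 hK.1
  · apply (continuousOn_dslope (Filter.mem_of_superset hn subset_closure)).2
    exact ⟨hK.2, hK.1.differentiableAt hn⟩

lemma mul_dslope {K : ℂ → ℂ} (h : K 0 = 0) (s : ℂ) : s * dslope K 0 s = K s := by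
  have := sub_smul_dslope K 0 s
  rw [sub_zero, h, sub_zero, smul_eq_mul] at this
  exact this

end

end Pool.Agent.H457HC
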