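import Mathlib
import Pool.Agent.H457HC.Upper

open Complex Metric Finset Real

namespace Pool.Agent.H457HC

noncomputable section

/-- The two-term Hölder step. -/
lemma hoelder_step {p η x y : ℝ} (hp : 1 ≤ p) (hη0 : 0 ≤ η) (hη1 : η < 1) (hx : 0 ≤ x) (hy : 0 ≤ y) :
    ((1 - η) ^ (1 - 1 / p) * x + η ^ (1 - 1 / p) * y) ^ p ≤ x ^ p + y ^ p := by
  have hp0 : 0 < p := by linarith
  have h1η : 0 < 1 - η := by linarith
  rcases hη0.eq_or_lt with h0 | h0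
  · subst h0
    rcases hp.eq_or_lt with h1 | h1
    · subst h1
      simp
    · have hne : 1 - 1 / p ≠ 0 := by
        have : 1 / p < 1 := by
          rw [div_lt_one hp0]; exact h1
        linarith
      rw [Real.zero_rpow hne]
      simp only [sub_zero, Real.one_rpow, one_mul, zero_mul, add_zero]
      have := Real.rpow_nonneg hy p
      linarith
  · have key := (convexOn_rpow hp).2 (x := x * (1 - η) ^ (-(1 / p))) (y := y * η ^ (-(1 / p)))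
      (by simp only [Set.mem_Ici]; positivity) (by simp only [Set.mem_Ici]; positivity) h1η.le h0.le (by ring)
    simp only [smul_eq_mul] at key
    have e1 : (1 - η) * (x * (1 - η) ^ (-(1 / p))) = (1 - η) ^ (1 - 1 / p) * x := by
      have h7 : (1 - 1 / p) = 1 + (-(1 / p)) := by ring
      have : (1 - η) ^ (1 - 1 / p) = (1 - η) * (1 - η) ^ (-(1 / p)) := by
        rw [h7, Real.rpow_add h1η, Real.rpow_one]
      rw [this]; ring
    have e2 : η * (y * η ^ (-(1 / p))) = η ^ (1 - 1 / p) * y := by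
      have h7 : (1 - 1 / p) = 1 + (-(1 / p)) := by ring
      have : η ^ (1 - 1 / p) = η * η ^ (-(1 / p)) := by
        rw [h7, Real.rpow_add h0, Real.rpow_one]
      rw [this]; ring
    have e3 : (1 - η) * (x * (1 - η) ^ (-(1 / p))) ^ p = x ^ p := by
      rw [Real.mul_rpow hx (by positivity), ← Real.rpow_mul h1η.le]
      have : -(1 / p) * p = -1 := by field_simp
      rw [this, Real.rpow_neg_one]
      field_simp
    have e4 : η * (y * η ^ (-(1 / p))) ^ p = y ^ p := by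
      rw [Real.mul_rpow hy (by positivity), ← Real.rpow_mul h0.le]
      have : -(1 / p) * p = -1 := by field_simp
      rw [this, Real.rpow_neg_one]
      field_simp
    rw [e1, e2, e3, e4] at key
    exact key

/-- the constant `D` -/
def DD (a τ : ℝ) : ℝ := (a + a * τ) * (1 + a * (a * τ))

def KU (p a τ : ℝ) (s : ℂ) : ℂ :=
  (((a / DD a τ) ^ (1 - 1 / p) : ℝ) : ℂ) * ((s + ((a * τ : ℝ) : ℂ)) * (1 + ((a * τ : ℝ) : ℂ) * s) ^ ((1 - 2 / p : ℝ) : ℂ))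

def KW (p a τ : ℝ) (s : ℂ) : ℂ :=
  (((a * τ / DD a τ) ^ (1 - 1 / p) * τ ^ (1 / p) : ℝ) : ℂ) *
    (((s - (a : ℂ)) * (1 - (a : ℂ) * s)) * (1 + ((-(a * τ) : ℝ) : ℂ) * s) ^ ((-(2 / p) : ℝ) : ℂ))

def RW (p a τ : ℝ) (s : ℂ) : ℂ :=
  ((((1 - τ) * (1 - a * (a * τ))) ^ (1 / p) : ℝ) : ℂ) * (1 + ((-(a * τ) : ℝ) : ℂ) * s) ^ ((-(2 / p) : ℝ) : ℂ)

variable {p a τ : ℝ}

lemma qt (ha0 : 0 < a) (ha1 : a < 1) (h0 : 0 ≤ τ) (h1 : τ ≤ 1) : |a * τ| < 1 := by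
  rw [abs_of_nonneg (by positivity)]
  nlinarith

lemma qt' (ha0 : 0 < a) (ha1 : a < 1) (h0 : 0 ≤ τ) (h1 : τ ≤ 1) : |-(a * τ)| < 1 := by
  rw [abs_neg]; exact qt ha0 ha1 h0 h1

lemma DD_pos (ha0 : 0 < a) (h0 : 0 ≤ τ) : 0 < DD a τ := by
  unfold DD; positivity

lemma AA_KU (ha0 : 0 < a) (ha1 : a < 1) (h0 : 0 ≤ τ) (h1 : τ ≤ 1) : AA (KU p a τ) := by
  unfold KU
  exact (AA_const _).mul ((AA_id.add' (AA_const _)).mul (AA_cpow (qt ha0 ha1 h0 h1) _))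

lemma AA_KW (ha0 : 0 < a) (ha1 : a < 1) (h0 : 0 ≤ τ) (h1 : τ ≤ 1) : AA (KW p a τ) := by
  unfold KW
  exact (AA_const _).mul (((AA_id.sub' (AA_const _)).mul ((AA_const _).sub' ((AA_const _).mul AA_id))).mul
    (AA_cpow (qt' ha0 ha1 h0 h1) _))

lemma AA_RW (ha0 : 0 < a) (ha1 : a < 1) (h0 : 0 ≤ τ) (h1 : τ ≤ 1) : AA (RW p a τ) := by
  unfold RW
  exact (AA_const _).mul (AA_cpow (qt' ha0 ha1 h0 h1) _)

lemma K_zero (hp : 1 ≤ p) (ha0 : 0 < a) (h0 : 0 ≤ τ) : KU p a τ 0 + KW p a τ 0 = 0 := by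
  have hp0 : 0 < p := by linarith
  have hD := DD_pos ha0 h0
  have hpi : 0 ≤ 1 - 1 / p := by
    have : 1 / p ≤ 1 := by rw [div_le_one hp0]; exact hp
    linarith
  unfold KU KW
  simp only [zero_add, mul_zero, add_zero, Complex.one_cpow, mul_one, zero_sub, sub_zero]
  rw [mul_neg, ← sub_eq_add_neg, sub_eq_zero, ← Complex.ofReal_mul, ← Complex.ofReal_mul]
  congr 1
  have e1 : (a * τ / DD a τ) ^ (1 - 1 / p) = (a / DD a τ) ^ (1 - 1 / p) * τ ^ (1 - 1 / p) := by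
    rw [← Real.mul_rpow (by positivity) h0]
    congr 1
    ring
  have e2 : τ ^ (1 - 1 / p) * τ ^ (1 / p) = τ := by
    rw [← Real.rpow_add_of_nonneg h0 hpi (by positivity)]
    simp
  rw [e1]
  calc (a / DD a τ) ^ (1 - 1 / p) * (a * τ) = (a / DD a τ) ^ (1 - 1 / p) * a * (τ ^ (1 - 1 / p) * τ ^ (1 / p)) := by
        rw [e2]; ring
    _ = _ := by ring

lemma KW_a : KW p a τ a = 0 := by
  unfold KW; simp

lemma rpow_two_mul' {x : ℝ} (hx : 0 ≤ x) (e : ℝ) : x ^ (2 * e) = (x ^ 2) ^ e := by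
  rw [Real.rpow_mul hx]
  norm_num

lemma norm_KU (hp : 1 ≤ p) (ha0 : 0 < a) (ha1 : a < 1) (h0 : 0 ≤ τ) (h1 : τ ≤ 1) {s : ℂ} (hs : ‖s‖ = 1) :
    ‖KU p a τ s‖ = (1 - a * τ * ‖1 - (a : ℂ) * s‖ ^ 2 / DD a τ) ^ (1 - 1 / p) := by
  have hp0 : 0 < p := by linarith
  have hD := DD_pos ha0 h0
  have hX : 0 < ‖1 + ((a * τ : ℝ) : ℂ) * s‖ := norm_pos_iff.2 (one_add_ne (qt ha0 ha1 h0 h1) hs.le)
  unfold KU
  rw [norm_mul, norm_mul, Complex.norm_cpow_real, Complex.norm_real, Real.norm_of_nonneg (by positivity),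
    norm_mob_eq hs]
  have e1 : ‖1 + ((a * τ : ℝ) : ℂ) * s‖ * ‖1 + ((a * τ : ℝ) : ℂ) * s‖ ^ (1 - 2 / p) =
      (‖1 + ((a * τ : ℝ) : ℂ) * s‖ ^ 2) ^ (1 - 1 / p) := by
    rw [← rpow_two_mul' hX.le]
    have : 2 * (1 - 1 / p) = 1 + (1 - 2 / p) := by ring
    rw [this, Real.rpow_add hX, Real.rpow_one]
  rw [e1, ← Real.mul_rpow (by positivity) (by positivity)]
  congr 1
  have n1 := normSq_one_add (a * τ) s
  have n2 := normSq_one_add (-a) s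
  have n3 : 1 - (a : ℂ) * s = 1 + ((-a : ℝ) : ℂ) * s := by push_cast; ring
  rw [n3, n1, n2, hs]
  field_simp
  unfold DD
  ring

lemma norm_KW (hp : 1 ≤ p) (ha0 : 0 < a) (ha1 : a < 1) (h0 : 0 ≤ τ) (h1 : τ ≤ 1) {s : ℂ} (hs : ‖s‖ = 1) :
    ‖KW p a τ s‖ = (a * τ * ‖1 - (a : ℂ) * s‖ ^ 2 / DD a τ) ^ (1 - 1 / p) *
      (τ * ‖1 - (a : ℂ) * s‖ ^ 2 / ‖1 + ((-(a * τ) : ℝ) : ℂ) * s‖ ^ 2) ^ (1 / p) := by
  have hp0 : 0 < p := by linarith
  have hD := DD_pos ha0 h0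
  have hpi : 0 ≤ 1 - 1 / p := by
    have : 1 / p ≤ 1 := by rw [div_le_one hp0]; exact hp
    linarith
  have hZ : 0 < ‖1 + ((-(a * τ) : ℝ) : ℂ) * s‖ := norm_pos_iff.2 (one_add_ne (qt' ha0 ha1 h0 h1) hs.le)
  have n3 : 1 - (a : ℂ) * s = 1 + ((-a : ℝ) : ℂ) * s := by push_cast; ring
  have hY : 0 < ‖1 - (a : ℂ) * s‖ := by
    rw [n3]; apply norm_pos_iff.2 (one_add_ne _ hs.le)
    rw [abs_neg]; exact abs_lt_one ha0 ha1
  have n1 : ‖s - (a : ℂ)‖ = ‖1 - (a : ℂ) * s‖ := by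
    have := norm_mob_eq (q := -a) hs
    rw [n3, ← this]
    congr 1
    push_cast; ring
  unfold KW
  rw [norm_mul, norm_mul, norm_mul, Complex.norm_cpow_real, Complex.norm_real, Real.norm_of_nonneg (by positivity),
    n1]
  set Y := ‖1 - (a : ℂ) * s‖ with hYd
  set Z := ‖1 + ((-(a * τ) : ℝ) : ℂ) * s‖ with hZd
  have e1 : Y * Y = (Y ^ 2) ^ (1 - 1 / p) * (Y ^ 2) ^ (1 / p) := by
    rw [← Real.rpow_add (by positivity)]
    simp [pow_two]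
  have e2 : Z ^ (-(2 / p)) = ((Z ^ 2) ^ (1 / p))⁻¹ := by
    rw [← rpow_two_mul' hZ.le, ← Real.rpow_neg hZ.le]
    congr 1
    ring
  have e3 : a * τ * Y ^ 2 / DD a τ = (a * τ / DD a τ) * Y ^ 2 := by ring
  have e4 : τ * Y ^ 2 / Z ^ 2 = τ * (Y ^ 2) * (Z ^ 2)⁻¹ := by ring
  rw [e1, e2, e3, e4, Real.mul_rpow (by positivity) (by positivity), Real.mul_rpow (by positivity) (by positivity),
    Real.mul_rpow h0 (by positivity), Real.inv_rpow (by positivity)]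
  ring

lemma norm_RW (hp : 1 ≤ p) (ha0 : 0 < a) (ha1 : a < 1) (h0 : 0 ≤ τ) (h1 : τ ≤ 1) {s : ℂ} (hs : ‖s‖ = 1) :
    ‖RW p a τ s‖ ^ p = 1 - τ * ‖1 - (a : ℂ) * s‖ ^ 2 / ‖1 + ((-(a * τ) : ℝ) : ℂ) * s‖ ^ 2 := by
  have hp0 : 0 < p := by linarith
  have hZ : 0 < ‖1 + ((-(a * τ) : ℝ) : ℂ) * s‖ := norm_pos_iff.2 (one_add_ne (qt' ha0 ha1 h0 h1) hs.le)
  have n3 : 1 - (a : ℂ) * s = 1 + ((-a : ℝ) : ℂ) * s := by push_cast; ring
  have hc : 0 ≤ (1 - τ) * (1 - a * (a * τ)) := by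
    apply mul_nonneg (by linarith)
    have : a * (a * τ) ≤ 1 := by nlinarith [mul_nonneg ha0.le h0]
    linarith
  unfold RW
  rw [norm_mul, Complex.norm_cpow_real, Complex.norm_real, Real.norm_of_nonneg (Real.rpow_nonneg hc _)]
  have n2 := normSq_one_add (-a) s
  have n1 := normSq_one_add (-(a * τ)) s
  rw [Real.mul_rpow (Real.rpow_nonneg hc _) (Real.rpow_nonneg hZ.le _), ← Real.rpow_mul hc, ← Real.rpow_mul hZ.le]
  have e1 : 1 / p * p = 1 := by field_simp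
  have e2 : -(2 / p) * p = -2 := by field_simp
  rw [e1, e2, Real.rpow_one]
  have e3 : ‖1 + ((-(a * τ) : ℝ) : ℂ) * s‖ ^ (-2 : ℝ) = (‖1 + ((-(a * τ) : ℝ) : ℂ) * s‖ ^ 2)⁻¹ := by
    rw [Real.rpow_neg hZ.le, Real.rpow_two]
  rw [e3]
  have hne : ‖1 + ((-(a * τ) : ℝ) : ℂ) * s‖ ^ 2 ≠ 0 := by positivity
  rw [eq_sub_iff_add_eq, ← div_eq_mul_inv, ← add_div, div_eq_one_iff_eq hne, n3, n2, n1, hs]
  ring

/-- the pointwise inequality on the circle -/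
lemma circle_ineq (hp : 1 ≤ p) (ha0 : 0 < a) (ha1 : a < 1) (h0 : 0 ≤ τ) (h1 : τ ≤ 1) {s : ℂ} (hs : ‖s‖ = 1)
    (u w : ℂ) : ‖KU p a τ s * u + KW p a τ s * w‖ ^ p + ‖RW p a τ s * w‖ ^ p ≤ ‖u‖ ^ p + ‖w‖ ^ p := by
  have hp0 : 0 < p := by linarith
  have hD := DD_pos ha0 h0
  have hZ : 0 < ‖1 + ((-(a * τ) : ℝ) : ℂ) * s‖ := norm_pos_iff.2 (one_add_ne (qt' ha0 ha1 h0 h1) hs.le)
  have hX : 0 < ‖1 + ((a * τ : ℝ) : ℂ) * s‖ := norm_pos_iff.2 (one_add_ne (qt ha0 ha1 h0 h1) hs.le)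
  have hU := norm_KU hp ha0 ha1 h0 h1 hs
  have hW := norm_KW hp ha0 ha1 h0 h1 hs
  have hR := norm_RW hp ha0 ha1 h0 h1 hs
  set η := a * τ * ‖1 - (a : ℂ) * s‖ ^ 2 / DD a τ with hη
  set σ := τ * ‖1 - (a : ℂ) * s‖ ^ 2 / ‖1 + ((-(a * τ) : ℝ) : ℂ) * s‖ ^ 2 with hσ
  have hη0 : 0 ≤ η := by positivity
  have hσ0 : 0 ≤ σ := by positivity
  have hη1 : η < 1 := by
    have n1 := normSq_one_add (a * τ) s
    have n2 := normSq_one_add (-a) s
    have n3 : 1 - (a : ℂ) * s = 1 + ((-a : ℝ) : ℂ) * s := by push_cast; ring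
    rw [hη, div_lt_one hD, n3, n2, hs]
    have h3 : 0 < a * ‖1 + ((a * τ : ℝ) : ℂ) * s‖ ^ 2 := by positivity
    rw [n1, hs] at h3
    unfold DD
    linarith
  have k1 : ‖KU p a τ s * u + KW p a τ s * w‖ ≤ (1 - η) ^ (1 - 1 / p) * ‖u‖ + η ^ (1 - 1 / p) * (σ ^ (1 / p) * ‖w‖) := by
    refine (norm_add_le _ _).trans ?_
    rw [norm_mul, norm_mul, hU, hW]
    apply le_of_eq; ring
  have k2 := hoelder_step hp hη0 hη1 (norm_nonneg u) (mul_nonneg (Real.rpow_nonneg hσ0 (1 / p)) (norm_nonneg w))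
  have k3 : (σ ^ (1 / p) * ‖w‖) ^ p = σ * ‖w‖ ^ p := by
    rw [Real.mul_rpow (Real.rpow_nonneg hσ0 _) (norm_nonneg _), ← Real.rpow_mul hσ0]
    have e1 : 1 / p * p = 1 := by field_simp
    rw [e1, Real.rpow_one]
  have k4 : ‖RW p a τ s * w‖ ^ p = (1 - σ) * ‖w‖ ^ p := by
    rw [norm_mul, Real.mul_rpow (norm_nonneg _) (norm_nonneg _), hR]
  have k5 : ‖KU p a τ s * u + KW p a τ s * w‖ ^ p ≤ ((1 - η) ^ (1 - 1 / p) * ‖u‖ + η ^ (1 - 1 / p) * (σ ^ (1 / p) * ‖w‖)) ^ p :=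
    Real.rpow_le_rpow (norm_nonneg _) k1 hp0.le
  rw [k4]
  rw [k3] at k2
  linarith

/-- the values at `a` -/
lemma KU_a (hp : 1 ≤ p) (ha0 : 0 < a) (h0 : 0 ≤ τ) :
    (‖KU p a τ a‖ / a) ^ p = (1 + τ) / (1 + a ^ 2 * τ) := by
  have hp0 : 0 < p := by linarith
  have hD := DD_pos ha0 h0
  unfold KU
  have hc : 0 < 1 + a * τ * a := by positivity
  have e0 : (1 + ((a * τ : ℝ) : ℂ) * (a : ℂ)) = ((1 + a * τ * a : ℝ) : ℂ) := by push_cast; ring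
  have e1 : ((a : ℂ) + ((a * τ : ℝ) : ℂ)) = ((a + a * τ : ℝ) : ℂ) := by push_cast; ring
  rw [norm_mul, norm_mul, Complex.norm_cpow_real, e0, e1, Complex.norm_real, Complex.norm_real, Complex.norm_real,
    Real.norm_of_nonneg (by positivity), Real.norm_of_nonneg (by positivity), Real.norm_of_nonneg hc.le]
  rw [Real.div_rpow (by positivity) ha0.le, Real.mul_rpow (by positivity) (by positivity),
    Real.mul_rpow (by positivity) (by positivity), ← Real.rpow_mul (by positivity), ← Real.rpow_mul hc.le]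
  have e2 : (1 - 1 / p) * p = p - 1 := by field_simp
  have e3 : (1 - 2 / p) * p = p - 2 := by field_simp
  rw [e2, e3]
  have e4 : a / DD a τ = (a * ((a + a * τ)⁻¹ * (1 + a * τ * a)⁻¹)) / 1 := by
    unfold DD; field_simp
  rw [e4, div_one, Real.mul_rpow ha0.le (by positivity), Real.mul_rpow (by positivity) (by positivity),
    Real.inv_rpow (by positivity), Real.inv_rpow (by positivity)]
  have f1 : (a + a * τ) ^ p = (a + a * τ) ^ (p - 1) * (a + a * τ) := by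
    rw [Real.rpow_sub_one (by positivity)]
    field_simp
  have f2 : (1 + a * τ * a) ^ (p - 1) = (1 + a * τ * a) ^ (p - 2) * (1 + a * τ * a) := by
    have : p - 2 = (p - 1) - 1 := by ring
    rw [this, Real.rpow_sub_one hc.ne' (p - 1)]
    field_simp
  have f3 : a ^ p = a ^ (p - 1) * a := by
    rw [Real.rpow_sub_one (by positivity)]
    field_simp
  rw [f1, f2, f3]
  have g1 : 0 < (a + a * τ) ^ (p - 1) := by positivity
  have g2 : 0 < (1 + a * τ * a) ^ (p - 2) := by positivity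
  have g3 : 0 < a ^ (p - 1) := by positivity
  generalize (a + a * τ) ^ (p - 1) = x1 at *
  generalize (1 + a * τ * a) ^ (p - 2) = x2 at *
  generalize a ^ (p - 1) = x3 at *
  field_simp

lemma RW_a (hp : 1 ≤ p) (ha0 : 0 < a) (ha1 : a < 1) (h0 : 0 ≤ τ) (h1 : τ ≤ 1) :
    ‖RW p a τ a‖ ^ p = (1 - τ) / (1 - a ^ 2 * τ) := by
  have hp0 : 0 < p := by linarith
  have hlt : a * (a * τ) < 1 := by
    have h2 : a * τ < 1 := by nlinarith
    have h3 : 0 ≤ a * τ := by positivity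
    nlinarith
  have hc : 0 ≤ (1 - τ) * (1 - a * (a * τ)) := by
    apply mul_nonneg (by linarith) (by linarith)
  have hc1 : 0 < 1 - a * (a * τ) := by linarith
  unfold RW
  have e0 : (1 + ((-(a * τ) : ℝ) : ℂ) * (a : ℂ)) = ((1 - a * (a * τ) : ℝ) : ℂ) := by push_cast; ring
  rw [norm_mul, Complex.norm_cpow_real, e0, Complex.norm_real, Complex.norm_real,
    Real.norm_of_nonneg (Real.rpow_nonneg hc _), Real.norm_of_nonneg hc1.le]
  rw [Real.mul_rpow (Real.rpow_nonneg hc _) (Real.rpow_nonneg hc1.le _), ← Real.rpow_mul hc, ← Real.rpow_mul hc1.le]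
  have e1 : 1 / p * p = 1 := by field_simp
  have e2 : -(2 / p) * p = -2 := by field_simp
  rw [e1, e2, Real.rpow_one, Real.rpow_neg hc1.le, Real.rpow_two]
  have e3 : a ^ 2 * τ = a * (a * τ) := by ring
  rw [e3]
  field_simp

end

end Pool.Agent.H457HC
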