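import Mathlib
import Pool.Agent.H457HC.Upper
import Pool.Agent.H457HC.Step
import Pool.Agent.H457HC.Scalar

open Complex Metric Finset Real

namespace Pool.Agent.H457HC

noncomputable section

/-- Multilinear families in the variables `x_i = ω_i σ(z)` with coefficients in the disc algebra. -/
def Fam (a : ℝ) : (n : ℕ) → ((Fin n → ℤˣ) → ℂ → ℂ) → Prop
  | 0, H => ∀ ω, AA (H ω)
  | n + 1, H => ∃ G0 G1 : (Fin n → ℤˣ) → ℂ → ℂ, Fam a n G0 ∧ Fam a n G1 ∧
      ∀ (ε : ℤˣ) (ω : Fin n → ℤˣ) (z : ℂ),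
        H (Fin.cons ε ω) z = G0 ω z + ((ε : ℤ) : ℂ) * sg a z * G1 ω z

variable {a p q τ : ℝ}

lemma Fam.comb : ∀ (n : ℕ) {G G' : (Fin n → ℤˣ) → ℂ → ℂ} {α β : ℂ → ℂ}, AA α → AA β →
    Fam a n G → Fam a n G' → Fam a n (fun ω z => α z * G ω z + β z * G' ω z)
  | 0, G, G', α, β, hα, hβ, hG, hG' => by
    intro ω
    exact (hα.mul (hG ω)).add' (hβ.mul (hG' ω))
  | n + 1, G, G', α, β, hα, hβ, hG, hG' => by
    obtain ⟨G0, G1, h0, h1, h⟩ := hG
    obtain ⟨G0', G1', h0', h1', h'⟩ := hG'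
    refine ⟨fun ω z => α z * G0 ω z + β z * G0' ω z, fun ω z => α z * G1 ω z + β z * G1' ω z,
      Fam.comb n hα hβ h0 h0', Fam.comb n hα hβ h1 h1', ?_⟩
    intro ε ω z
    simp only [h, h']
    ring

lemma Fam.aa (ha0 : 0 < a) (ha1 : a < 1) : ∀ (n : ℕ) {G : (Fin n → ℤˣ) → ℂ → ℂ}, Fam a n G → ∀ ω, AA (G ω)
  | 0, G, hG => hG
  | n + 1, G, hG => by
    obtain ⟨G0, G1, h0, h1, h⟩ := hG
    intro ω
    have h2 : G ω = fun z => G0 (Fin.tail ω) z + (((ω 0 : ℤˣ) : ℤ) : ℂ) * sg a z * G1 (Fin.tail ω) z := by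
      funext z
      rw [← h, Fin.cons_self_tail]
    rw [h2]
    exact (Fam.aa ha0 ha1 n h0 _).add' (((AA_const _).mul (AA_sg ha0 ha1)).mul (Fam.aa ha0 ha1 n h1 _))

def Np (p : ℝ) (n : ℕ) (H : (Fin n → ℤˣ) → ℂ → ℂ) (z : ℂ) : ℝ := (∑ ω, ‖H ω z‖ ^ p) / 2 ^ n

def Sq (q : ℝ) (n : ℕ) (H : (Fin n → ℤˣ) → ℂ → ℂ) : ℝ := (∑ ω, ‖H ω 0‖ ^ q) / 2 ^ n

def EX (p q : ℝ) (n : ℕ) (H : (Fin n → ℤˣ) → ℂ → ℂ) : ℝ := Sq q n H ^ (p / q)

lemma Sq_nonneg (q : ℝ) (n : ℕ) (H : (Fin n → ℤˣ) → ℂ → ℂ) : 0 ≤ Sq q n H := by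
  unfold Sq
  apply div_nonneg (Finset.sum_nonneg fun ω _ => Real.rpow_nonneg (norm_nonneg _) _) (by positivity)

lemma EX_nonneg (p q : ℝ) (n : ℕ) (H : (Fin n → ℤˣ) → ℂ → ℂ) : 0 ≤ EX p q n H :=
  Real.rpow_nonneg (Sq_nonneg q n H) _

lemma Np_nonneg (p : ℝ) (n : ℕ) (H : (Fin n → ℤˣ) → ℂ → ℂ) (z : ℂ) : 0 ≤ Np p n H z := by
  unfold Np
  apply div_nonneg (Finset.sum_nonneg fun ω _ => Real.rpow_nonneg (norm_nonneg _) _) (by positivity)

lemma Np_continuousOn (hp : 0 ≤ p) {n : ℕ} {H : (Fin n → ℤˣ) → ℂ → ℂ} (h : ∀ ω, AA (H ω)) :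
    ContinuousOn (Np p n H) (sphere 0 |(1:ℝ)|) := by
  unfold Np
  apply ContinuousOn.div_const
  apply continuousOn_finsetSum
  intro ω _
  apply ContinuousOn.rpow_const
  · apply ContinuousOn.norm
    apply (h ω).continuousOn_ball.mono
    rw [abs_one]
    exact sphere_subset_closedBall
  · intro x _
    exact Or.inr hp

lemma Np_integrable (hp : 0 ≤ p) {n : ℕ} {H : (Fin n → ℤˣ) → ℂ → ℂ} (h : ∀ ω, AA (H ω)) :
    CircleIntegrable (Np p n H) 0 1 := by
  apply ContinuousOn.circleIntegrable'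
  exact Np_continuousOn hp h

/-- Jensen's inequality for the disc algebra. -/
lemma jensen (hp : 1 ≤ p) {h : ℂ → ℂ} (hh : AA h) : ‖h 0‖ ^ p ≤ circleAverage (fun z => ‖h z‖ ^ p) 0 1 := by
  have hp0 : 0 < p := by linarith
  have hc : ContinuousOn (fun z => ‖h z‖) (sphere 0 |(1:ℝ)|) := by
    apply ContinuousOn.norm
    apply hh.continuousOn_ball.mono
    rw [abs_one]
    exact sphere_subset_closedBall
  have hc2 : ContinuousOn (fun z => ‖h z‖ ^ p) (sphere 0 |(1:ℝ)|) := by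
    apply ContinuousOn.rpow_const hc
    intro x _
    exact Or.inr hp0.le
  have hi2 : CircleIntegrable (fun z => ‖h z‖ ^ p) 0 1 := ContinuousOn.circleIntegrable' hc2
  have hi1 : CircleIntegrable (fun z => ‖h z‖) 0 1 := ContinuousOn.circleIntegrable' hc
  have hm : ‖h 0‖ ≤ circleAverage (fun z => ‖h z‖) 0 1 := by
    have h3 : circleAverage h 0 1 = h 0 := by
      apply DiffContOnCl.circleAverage
      rw [abs_one]
      exact hh
    rw [← h3]
    unfold circleAverage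
    rw [norm_smul]
    have h4 : ‖∫ (θ : ℝ) in 0..2 * π, h (circleMap 0 1 θ)‖ ≤ ∫ (θ : ℝ) in 0..2 * π, ‖h (circleMap 0 1 θ)‖ := by
      apply intervalIntegral.norm_integral_le_integral_norm
      positivity
    rw [smul_eq_mul, Real.norm_of_nonneg (by positivity)]
    exact mul_le_mul_of_nonneg_left h4 (by positivity)
  set c := ‖h 0‖ with hcd
  rcases (norm_nonneg (h 0)).eq_or_lt with h0 | h0
  · rw [hcd, ← h0, Real.zero_rpow hp0.ne']
    apply circleAverage_nonneg_of_nonneg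
    intro z _
    exact Real.rpow_nonneg (norm_nonneg _) _
  · rw [← hcd] at h0
    have hlin : circleAverage (fun z => (p * c ^ (p - 1)) • ‖h z‖ + (c ^ p - p * c ^ (p - 1) * c)) 0 1 =
        (p * c ^ (p - 1)) * circleAverage (fun z => ‖h z‖) 0 1 + (c ^ p - p * c ^ (p - 1) * c) := by
      rw [circleAverage_fun_add]
      · rw [circleAverage_fun_smul, circleAverage_const, smul_eq_mul]
      · exact hi1.const_fun_smul
      · exact circleIntegrable_const _ _ _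
    have hle : circleAverage (fun z => (p * c ^ (p - 1)) • ‖h z‖ + (c ^ p - p * c ^ (p - 1) * c)) 0 1 ≤
        circleAverage (fun z => ‖h z‖ ^ p) 0 1 := by
      apply circleAverage_mono _ hi2
      · intro z _
        have hb := one_add_mul_self_le_rpow_one_add (s := ‖h z‖ / c - 1) (by
          have : 0 ≤ ‖h z‖ / c := by positivity
          linarith) hp
        have e1 : 1 + (‖h z‖ / c - 1) = ‖h z‖ / c := by ring
        rw [e1, Real.div_rpow (norm_nonneg _) h0.le, le_div_iff₀ (Real.rpow_pos_of_pos h0 _)] at hb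
        have e2 : c ^ p = c ^ (p - 1) * c := by rw [Real.rpow_sub_one h0.ne']; field_simp
        have e3 : (1 + p * (‖h z‖ / c - 1)) * c ^ p = (p * c ^ (p - 1)) • ‖h z‖ + (c ^ p - p * c ^ (p - 1) * c) := by
          rw [e2, smul_eq_mul]; field_simp; ring
        rw [e3] at hb
        exact hb
      · exact (hi1.const_fun_smul).add (circleIntegrable_const _ _ _)
    rw [hlin] at hle
    have h5 : 0 ≤ p * c ^ (p - 1) := by positivity
    have h6 := mul_le_mul_of_nonneg_left hm h5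
    linarith

lemma EX_zero_le (hp : 1 ≤ p) (hq : 0 < q) {H : (Fin 0 → ℤˣ) → ℂ → ℂ} (h : ∀ ω, AA (H ω)) :
    EX p q 0 H ≤ circleAverage (Np p 0 H) 0 1 := by
  have h1 : EX p q 0 H = ‖H default 0‖ ^ p := by
    unfold EX Sq
    rw [Fintype.sum_unique, pow_zero, div_one, ← Real.rpow_mul (norm_nonneg _)]
    have : q * (p / q) = p := by field_simp
    rw [this]
    congr 3
    exact Subsingleton.elim _ _
  have h2 : Np p 0 H = fun z => ‖H default z‖ ^ p := by
    funext z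
    unfold Np
    rw [Fintype.sum_unique, pow_zero, div_one]
    congr 3
    exact Subsingleton.elim _ _
  rw [h1, h2]
  exact jensen hp (h default)

lemma EX_smul (hq : 0 < q) {n : ℕ} {H H' : (Fin n → ℤˣ) → ℂ → ℂ} {c : ℝ} (hc : 0 ≤ c)
    (h : ∀ ω, ‖H' ω 0‖ = c * ‖H ω 0‖) : EX p q n H' = c ^ p * EX p q n H := by
  unfold EX
  have : Sq q n H' = c ^ q * Sq q n H := by
    unfold Sq
    rw [mul_div_assoc', Finset.mul_sum]
    congr 1
    apply Finset.sum_congr rfl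
    intro ω _
    rw [h, Real.mul_rpow hc (norm_nonneg _)]
  rw [this, Real.mul_rpow (Real.rpow_nonneg hc _) (Sq_nonneg _ _ _), ← Real.rpow_mul hc]
  have e : q * (p / q) = p := by field_simp
  rw [e]

/-- The key inequality for fixed `τ`. -/
lemma key_step (hp : 1 ≤ p) (hq : 0 < q) (ha0 : 0 < a) (ha1 : a < 1) {n : ℕ}
    (IH : ∀ H : (Fin n → ℤˣ) → ℂ → ℂ, Fam a n H → EX p q n H ≤ circleAverage (Np p n H) 0 1)
    {G0 G1 : (Fin n → ℤˣ) → ℂ → ℂ} (h0 : Fam a n G0) (h1 : Fam a n G1) {τ : ℝ} (ht0 : 0 ≤ τ) (ht1 : τ ≤ 1) :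
    (1 + τ) / (1 + a ^ 2 * τ) * EX p q n (fun ω z => G0 ω z + sg a z * G1 ω z) +
      (1 - τ) / (1 - a ^ 2 * τ) * EX p q n (fun ω z => G0 ω z - sg a z * G1 ω z) ≤
    circleAverage (fun z => Np p n (fun ω z => G0 ω z + sg a z * G1 ω z) z +
      Np p n (fun ω z => G0 ω z - sg a z * G1 ω z) z) 0 1 := by
  have hp0 : 0 < p := by linarith
  set U : (Fin n → ℤˣ) → ℂ → ℂ := fun ω z => G0 ω z + sg a z * G1 ω z with hU
  set W : (Fin n → ℤˣ) → ℂ → ℂ := fun ω z => G0 ω z - sg a z * G1 ω z with hW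
  have AR : AA (fun z => RW p a τ (sg a z)) := AA_comp_sg ha0 ha1 (AA_RW ha0 ha1 ht0 ht1)
  have AU : AA (fun z => KU p a τ (sg a z)) := AA_comp_sg ha0 ha1 (AA_KU ha0 ha1 ht0 ht1)
  have AW : AA (fun z => KW p a τ (sg a z)) := AA_comp_sg ha0 ha1 (AA_KW ha0 ha1 ht0 ht1)
  have AK : AA (fun s => KU p a τ s + KW p a τ s) := (AA_KU ha0 ha1 ht0 ht1).add' (AA_KW ha0 ha1 ht0 ht1)
  have AM : AA (fun z => dslope (fun s => KU p a τ s + KW p a τ s) 0 (sg a z)) :=
    AA_comp_sg ha0 ha1 (AA_dslope AK)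
  have hM : ∀ s : ℂ, s * dslope (fun s => KU p a τ s + KW p a τ s) 0 s = KU p a τ s + KW p a τ s :=
    fun s => mul_dslope (K_zero hp ha0 ht0) s
  generalize hMM : dslope (fun s => KU p a τ s + KW p a τ s) 0 = M at *
  -- the two test families
  let Hm : (Fin n → ℤˣ) → ℂ → ℂ := fun ω z => RW p a τ (sg a z) * G0 ω z + (RW p a τ (sg a z) * ((-1) * sg a z)) * G1 ω z
  have FHm : Fam a n Hm := Fam.comb n AR (AR.mul ((AA_const (-1)).mul (AA_sg ha0 ha1))) h0 h1
  let Hz : (Fin n → ℤˣ) → ℂ → ℂ := fun ω z => M (sg a z) * G0 ω z +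
    (KU p a τ (sg a z) - KW p a τ (sg a z)) * G1 ω z
  have FHz : Fam a n Hz := Fam.comb n AM (AU.sub' AW) h0 h1
  have I1 := IH Hm FHm
  have I2 := IH Hz FHz
  have e1 : ∀ ω z, Hm ω z = RW p a τ (sg a z) * W ω z := by
    intro ω z; simp only [Hm, hW]; ring
  have e2 : ∀ ω z, sg a z * Hz ω z = KU p a τ (sg a z) * U ω z + KW p a τ (sg a z) * W ω z := by
    intro ω z
    have := hM (sg a z)
    simp only [Hz, hU, hW]
    linear_combination (G0 ω z) * this
  have V1 : EX p q n Hm = (1 - τ) / (1 - a ^ 2 * τ) * EX p q n W := by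
    rw [← RW_a hp ha0 ha1 ht0 ht1]
    apply EX_smul hq (norm_nonneg _)
    intro ω
    rw [e1, norm_mul, sg_zero]
  have V2 : EX p q n Hz = (1 + τ) / (1 + a ^ 2 * τ) * EX p q n U := by
    rw [← KU_a hp ha0 ht0]
    apply EX_smul hq (by positivity)
    intro ω
    have := e2 ω 0
    rw [sg_zero, KW_a, zero_mul, add_zero] at this
    have h3 : ‖(a : ℂ) * Hz ω 0‖ = ‖KU p a τ a * U ω 0‖ := by rw [this]
    rw [norm_mul, norm_mul, Complex.norm_real, Real.norm_of_nonneg ha0.le] at h3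
    rw [div_mul_eq_mul_div, eq_div_iff ha0.ne', mul_comm]
    exact h3
  have FU : ∀ ω, AA (U ω) := fun ω => (h0.aa ha0 ha1 n ω).add' ((AA_sg ha0 ha1).mul (h1.aa ha0 ha1 n ω))
  have FW : ∀ ω, AA (W ω) := fun ω => (h0.aa ha0 ha1 n ω).sub' ((AA_sg ha0 ha1).mul (h1.aa ha0 ha1 n ω))
  rw [V1] at I1
  rw [V2] at I2
  have i1 := Np_integrable hp0.le (FHz.aa ha0 ha1 n)
  have i2 := Np_integrable hp0.le (FHm.aa ha0 ha1 n)
  have i3 := Np_integrable hp0.le FU
  have i4 := Np_integrable hp0.le FW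
  have I3 : circleAverage (Np p n Hz) 0 1 + circleAverage (Np p n Hm) 0 1 ≤
      circleAverage (fun z => Np p n U z + Np p n W z) 0 1 := by
    rw [← circleAverage_add i1 i2]
    apply circleAverage_mono (i1.add i2) (i3.add i4)
    intro z hz
    have hz1 : ‖z‖ = 1 := by simpa using hz
    simp only [Pi.add_apply]
    unfold Np
    rw [← add_div, ← add_div, ← Finset.sum_add_distrib, ← Finset.sum_add_distrib]
    apply div_le_div_of_nonneg_right _ (by positivity)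
    apply Finset.sum_le_sum
    intro ω _
    have hs := norm_sg_eq ha0 ha1 hz1
    have k1 : ‖Hz ω z‖ = ‖sg a z * Hz ω z‖ := by rw [norm_mul, hs, one_mul]
    rw [k1, e2 ω z, e1]
    exact circle_ineq hp ha0 ha1 ht0 ht1 hs _ _
  linarith

lemma sum_cons {n : ℕ} {M : Type*} [AddCommMonoid M] (g : (Fin (n + 1) → ℤˣ) → M) :
    ∑ x, g x = ∑ ω : Fin n → ℤˣ, g (Fin.cons 1 ω) + ∑ ω : Fin n → ℤˣ, g (Fin.cons (-1) ω) := by
  rw [← (Fin.consEquiv (fun _ => ℤˣ)).sum_comp, Fintype.sum_prod_type, UnitsInt.univ,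
    Finset.sum_pair (by decide)]
  rfl

theorem main_ineq (hp : 1 ≤ p) (hpq : p < q) (ha0 : 0 < a) (ha1 : a < 1) (ha : a ^ 2 = 1 / (2 * (q / p) - 1)) :
    ∀ (n : ℕ) (H : (Fin n → ℤˣ) → ℂ → ℂ), Fam a n H → EX p q n H ≤ circleAverage (Np p n H) 0 1
  | 0, H, hH => EX_zero_le hp (by linarith) hH
  | n + 1, H, hH => by
    have hp0 : 0 < p := by linarith
    have hq0 : 0 < q := by linarith
    obtain ⟨G0, G1, h0, h1, h⟩ := hH
    have IH := main_ineq hp hpq ha0 ha1 ha n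
    set U : (Fin n → ℤˣ) → ℂ → ℂ := fun ω z => G0 ω z + sg a z * G1 ω z with hU
    set W : (Fin n → ℤˣ) → ℂ → ℂ := fun ω z => G0 ω z - sg a z * G1 ω z with hW
    have hU1 : ∀ ω z, H (Fin.cons 1 ω) z = U ω z := by
      intro ω z; rw [h, hU]; simp
    have hW1 : ∀ ω z, H (Fin.cons (-1) ω) z = W ω z := by
      intro ω z; rw [h, hW]; simp; ring
    have FU : ∀ ω, AA (U ω) := fun ω => (h0.aa ha0 ha1 n ω).add' ((AA_sg ha0 ha1).mul (h1.aa ha0 ha1 n ω))
    have FW : ∀ ω, AA (W ω) := fun ω => (h0.aa ha0 ha1 n ω).sub' ((AA_sg ha0 ha1).mul (h1.aa ha0 ha1 n ω))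
    have i3 := Np_integrable hp0.le FU
    have i4 := Np_integrable hp0.le FW
    have eN1 : Np p (n + 1) H = fun z => (1 / 2 : ℝ) • (Np p n U z + Np p n W z) := by
      funext z
      unfold Np
      rw [sum_cons]
      simp only [hU1, hW1]
      rw [pow_succ, smul_eq_mul]
      field_simp
    have eA : 2 * circleAverage (Np p (n + 1) H) 0 1 = circleAverage (fun z => Np p n U z + Np p n W z) 0 1 := by
      rw [eN1, circleAverage_fun_smul, smul_eq_mul]
      ring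
    have eN2 : Sq q (n + 1) H = (Sq q n U + Sq q n W) / 2 := by
      unfold Sq
      rw [sum_cons]
      simp only [hU1, hW1]
      rw [pow_succ]
      field_simp
    have hX : ∀ G : (Fin n → ℤˣ) → ℂ → ℂ, EX p q n G ^ (q / p) = Sq q n G := by
      intro G
      unfold EX
      rw [← Real.rpow_mul (Sq_nonneg _ _ _)]
      have : p / q * (q / p) = 1 := by field_simp
      rw [this, Real.rpow_one]
    have hR : 0 ≤ circleAverage (Np p (n + 1) H) 0 1 := by
      apply circleAverage_nonneg_of_nonneg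
      intro z _
      exact Np_nonneg _ _ _ _
    have hr : 1 < q / p := by rw [lt_div_iff₀ hp0]; linarith
    have key : (EX p q n U ^ (q / p) + EX p q n W ^ (q / p)) / 2 ≤ circleAverage (Np p (n + 1) H) 0 1 ^ (q / p) := by
      rcases le_total (EX p q n W) (EX p q n U) with hc | hc
      · apply scalar_lemma hr ha (EX_nonneg _ _ _ _) (EX_nonneg _ _ _ _) _ hc
        intro τ t0 t1
        rw [eA]
        exact key_step hp hq0 ha0 ha1 IH h0 h1 t0 t1
      · rw [add_comm]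
        apply scalar_lemma hr ha (EX_nonneg _ _ _ _) (EX_nonneg _ _ _ _) _ hc
        intro τ t0 t1
        have h1' : Fam a n (fun ω z => (-1 : ℂ) * G1 ω z + 0 * G1 ω z) :=
          Fam.comb n (AA_const (-1)) (AA_const 0) h1 h1
        have := key_step hp hq0 ha0 ha1 IH h0 h1' t0 t1
        have e1 : (fun (ω : Fin n → ℤˣ) z => G0 ω z + sg a z * ((-1 : ℂ) * G1 ω z + 0 * G1 ω z)) = W := by
          funext ω z; rw [hW]; ring
        have e2 : (fun (ω : Fin n → ℤˣ) z => G0 ω z - sg a z * ((-1 : ℂ) * G1 ω z + 0 * G1 ω z)) = U := by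
          funext ω z; rw [hU]; ring
        rw [e1, e2] at this
        rw [eA]
        simpa [add_comm] using this
    rw [hX, hX, ← eN2] at key
    have h5 : EX p q (n + 1) H ≤ (circleAverage (Np p (n + 1) H) 0 1 ^ (q / p)) ^ (p / q) := by
      unfold EX
      exact Real.rpow_le_rpow (Sq_nonneg _ _ _) key (by positivity)
    rw [← Real.rpow_mul hR] at h5
    have : q / p * (p / q) = 1 := by field_simp
    rwa [this, Real.rpow_one] at h5

end

end Pool.Agent.H457HC
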