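import Mathlib
import Pool.Agent.H457HC.Defs
import Pool.Agent.H457HC.Main
import Pool.Agent.H457HC.CubeBasics

open Complex Metric Finset Real

namespace Pool.Agent.H457HC

noncomputable section

variable {a : ℝ}

lemma Fam.zero : ∀ n : ℕ, Fam a n (fun _ _ => 0)
  | 0 => fun _ => AA_const 0
  | n + 1 => ⟨fun _ _ => 0, fun _ _ => 0, Fam.zero n, Fam.zero n, by intro ε ω z; simp⟩

lemma fam_chi (ha0 : 0 < a) (ha1 : a < 1) : ∀ (n d : ℕ) (p : Fin n → Bool), (∑ i, if p i then 1 else 0) ≤ d →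
    Fam a n (fun ω z => sg a z ^ d * ((∏ i, if p i then (((ω i : ℤˣ) : ℤ) : ℂ) else 1)))
  | 0, d, p, _ => by
    intro ω
    simpa using (AA_sg ha0 ha1).pow' d
  | n + 1, d, p, hp => by
    rw [Fin.sum_univ_succ] at hp
    by_cases h0 : p 0
    · simp only [h0, if_true] at hp
      obtain ⟨d', rfl⟩ : ∃ d', d = d' + 1 := ⟨d - 1, by omega⟩
      refine ⟨fun _ _ => 0, _, Fam.zero n, fam_chi ha0 ha1 n d' (fun i => p i.succ) (by omega), ?_⟩
      intro ε ω z
      simp only [Fin.prod_univ_succ, h0, if_true, Fin.cons_zero, Fin.cons_succ]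
      ring
    · simp only [h0, if_false, Bool.false_eq_true, zero_add] at hp
      refine ⟨_, fun _ _ => 0, fam_chi ha0 ha1 n d (fun i => p i.succ) hp, Fam.zero n, ?_⟩
      intro ε ω z
      simp only [Fin.prod_univ_succ, h0, if_false, Fin.cons_succ, Bool.false_eq_true]
      ring

lemma Fam.sum {n : ℕ} {ι : Type*} (T : Finset ι) (c : ι → ℂ) (H : ι → (Fin n → ℤˣ) → ℂ → ℂ)
    (h : ∀ i ∈ T, c i ≠ 0 → Fam a n (H i)) : Fam a n (fun ω z => ∑ i ∈ T, c i * H i ω z) := by
  classical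
  induction T using Finset.induction_on with
  | empty => simpa using Fam.zero n
  | insert a T ha ih =>
    have h1 := ih (fun i hi => h i (Finset.mem_insert_of_mem hi))
    have e : (fun (ω : Fin n → ℤˣ) z => ∑ i ∈ insert a T, c i * H i ω z) =
        fun ω z => c a * H a ω z + 1 * ∑ i ∈ T, c i * H i ω z := by
      funext ω z; rw [Finset.sum_insert ha, one_mul]
    rw [e]
    by_cases hc : c a = 0
    · have e2 : (fun (ω : Fin n → ℤˣ) z => c a * H a ω z + 1 * ∑ i ∈ T, c i * H i ω z) =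
        fun ω z => 0 * (0 : ℂ) + 1 * ∑ i ∈ T, c i * H i ω z := by
        funext ω z; rw [hc]; simp
      rw [e2]
      exact Fam.comb n (AA_const 0) (AA_const 1) (Fam.zero n) h1
    · exact Fam.comb n (AA_const _) (AA_const 1) (h a (Finset.mem_insert_self _ _) hc) h1

lemma fam_walsh (ha0 : 0 < a) (ha1 : a < 1) {n d : ℕ} (S : Finset (Fin n)) (h : S.card ≤ d) :
    Fam a n (fun ω z => sg a z ^ d * ((walsh S ω : ℝ) : ℂ)) := by
  classical
  have h1 := fam_chi ha0 ha1 n d (fun i => decide (i ∈ S)) (by simpa using h)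
  have e : (fun (ω : Fin n → ℤˣ) z => sg a z ^ d * ((walsh S ω : ℝ) : ℂ)) =
      fun ω z => sg a z ^ d * ((∏ i, if (decide (i ∈ S) : Bool) then (((ω i : ℤˣ) : ℤ) : ℂ) else 1)) := by
    funext ω z
    congr 1
    unfold walsh
    simp only [decide_eq_true_eq]
    rw [Finset.prod_ite_mem, Finset.univ_inter]
    push_cast
    rfl
  rw [e]; exact h1

lemma fam_f (ha0 : 0 < a) (ha1 : a < 1) {n : ℕ} (f : Cube n → ℝ) : Fam a n (fun ω z => sg a z ^ degree f * ((f ω : ℝ) : ℂ)) := by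
  have h := Fam.sum (Finset.univ : Finset (Finset (Fin n))) (fun S => ((fourier f S : ℝ) : ℂ))
    (fun S ω z => sg a z ^ degree f * ((walsh S ω : ℝ) : ℂ)) (by
      intro S _ hS
      apply fam_walsh ha0 ha1
      apply card_le_degree
      intro h0
      apply hS
      rw [h0]; simp)
  have e : (fun (ω : Fin n → ℤˣ) z => sg a z ^ degree f * ((f ω : ℝ) : ℂ)) =
      fun ω z => ∑ S, ((fourier f S : ℝ) : ℂ) * (sg a z ^ degree f * ((walsh S ω : ℝ) : ℂ)) := by
    funext ω z
    conv_lhs => rw [fourier_inversion f ω]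
    push_cast
    rw [Finset.mul_sum]
    apply Finset.sum_congr rfl
    intro S _
    ring
  rw [e]; exact h


lemma lpNorm_nonneg {n : ℕ} (p : ℝ) (f : Cube n → ℝ) : 0 ≤ lpNorm p f :=
  Real.rpow_nonneg (mean_nonneg fun _ => Real.rpow_nonneg (abs_nonneg _) _) _

lemma lpNorm_rpow {n : ℕ} {p : ℝ} (hp : 0 < p) (f : Cube n → ℝ) : lpNorm p f ^ p = mean fun x => |f x| ^ p := by
  unfold lpNorm
  rw [← Real.rpow_mul (mean_nonneg fun _ => Real.rpow_nonneg (abs_nonneg _) _)]
  have : 1 / p * p = 1 := by field_simp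
  rw [this, Real.rpow_one]

/-- The sharp upper bound for all `1 ≤ p < q`. -/
theorem upper_bound {n : ℕ} {p q : ℝ} (hp : 1 ≤ p) (hpq : p < q) (f : Cube n → ℝ) :
    lpNorm q f ≤ Real.sqrt (2 * q / p - 1) ^ degree f * lpNorm p f := by
  have hp0 : 0 < p := by linarith
  have hq0 : 0 < q := by linarith
  have hM : 1 < 2 * (q / p) - 1 := by
    have : 1 < q / p := by rw [lt_div_iff₀ hp0]; linarith
    linarith
  have hM0 : 0 < 2 * (q / p) - 1 := by linarith
  set M := 2 * (q / p) - 1 with hMd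
  have hMe : 2 * q / p - 1 = M := by rw [hMd]; ring
  rw [hMe]
  obtain ⟨a, ha⟩ : ∃ a : ℝ, a = 1 / Real.sqrt M := ⟨_, rfl⟩
  have hs1 : 1 < Real.sqrt M := by
    rw [show (1:ℝ) = Real.sqrt 1 by simp]
    exact Real.sqrt_lt_sqrt (by norm_num) hM
  have ha0 : 0 < a := by rw [ha]; positivity
  have ha1 : a < 1 := by rw [ha, div_lt_one (by linarith)]; exact hs1
  have ha2 : a ^ 2 = 1 / (2 * (q / p) - 1) := by
    rw [ha, div_pow, Real.sq_sqrt hM0.le, one_pow]
  have h := main_ineq hp hpq ha0 ha1 ha2 n _ (fam_f ha0 ha1 f)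
  have e1 : EX p q n (fun ω z => sg a z ^ degree f * ((f ω : ℝ) : ℂ)) = (a ^ degree f * lpNorm q f) ^ p := by
    have h2 : Sq q n (fun ω z => sg a z ^ degree f * ((f ω : ℝ) : ℂ)) = (a ^ degree f * lpNorm q f) ^ q := by
      rw [Real.mul_rpow (by positivity) (lpNorm_nonneg _ _), lpNorm_rpow hq0]
      unfold Sq mean
      rw [mul_div_assoc', Finset.mul_sum]
      congr 1
      apply Finset.sum_congr rfl
      intro ω _
      show ‖sg a 0 ^ degree f * ((f ω : ℝ) : ℂ)‖ ^ q = _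
      rw [sg_zero, norm_mul, norm_pow, Complex.norm_real, Complex.norm_real, Real.norm_of_nonneg ha0.le,
        Real.mul_rpow (by positivity) (norm_nonneg _), Real.norm_eq_abs]
    unfold EX
    rw [h2, ← Real.rpow_mul (mul_nonneg (by positivity) (lpNorm_nonneg _ _))]
    congr 1
    field_simp
  have e2 : circleAverage (Np p n (fun ω z => sg a z ^ degree f * ((f ω : ℝ) : ℂ))) 0 1 = lpNorm p f ^ p := by
    apply circleAverage_const_on_circle
    intro z hz
    have hz1 : ‖z‖ = 1 := by simpa using hz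
    rw [lpNorm_rpow hp0]
    unfold Np mean
    congr 1
    apply Finset.sum_congr rfl
    intro ω _
    show ‖sg a z ^ degree f * ((f ω : ℝ) : ℂ)‖ ^ p = _
    rw [norm_mul, norm_pow, norm_sg_eq ha0 ha1 hz1, one_pow, one_mul, Complex.norm_real, Real.norm_eq_abs]
  rw [e1, e2] at h
  have h6 : a ^ degree f * lpNorm q f ≤ lpNorm p f :=
    (Real.rpow_le_rpow_iff (mul_nonneg (by positivity) (lpNorm_nonneg _ _)) (lpNorm_nonneg _ _) hp0).1 h
  have h3 : Real.sqrt M * a = 1 := by
    rw [ha, mul_one_div, div_self]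
    linarith
  calc lpNorm q f = (Real.sqrt M * a) ^ degree f * lpNorm q f := by rw [h3]; simp
    _ = Real.sqrt M ^ degree f * (a ^ degree f * lpNorm q f) := by rw [mul_pow]; ring
    _ ≤ _ := mul_le_mul_of_nonneg_left h6 (by positivity)

end

end Pool.Agent.H457HC
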