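import Mathlib
import Pool.Agent.H457HC.UpperFinal

open Complex Metric Finset Real Filter Topology

namespace Pool.Agent.H457HC

noncomputable section

variable {p : ℝ}

/-- Jensen's inequality for circle averages. -/
lemma jensen_circle (hp : 1 ≤ p) {g : ℂ → ℂ} {R : ℝ} (hg : ContinuousOn g (sphere 0 |R|)) :
    ‖circleAverage g 0 R‖ ^ p ≤ circleAverage (fun z => ‖g z‖ ^ p) 0 R := by
  have hp0 : 0 < p := by linarith
  have hc : ContinuousOn (fun z => ‖g z‖) (sphere 0 |R|) := hg.norm
  have hc2 : ContinuousOn (fun z => ‖g z‖ ^ p) (sphere 0 |R|) := by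
    apply ContinuousOn.rpow_const hc
    intro x _
    exact Or.inr hp0.le
  have hi2 : CircleIntegrable (fun z => ‖g z‖ ^ p) 0 R := ContinuousOn.circleIntegrable' hc2
  have hi1 : CircleIntegrable (fun z => ‖g z‖) 0 R := ContinuousOn.circleIntegrable' hc
  have hm : ‖circleAverage g 0 R‖ ≤ circleAverage (fun z => ‖g z‖) 0 R := by
    unfold circleAverage
    rw [norm_smul]
    have h4 : ‖∫ (θ : ℝ) in 0..2 * π, g (circleMap 0 R θ)‖ ≤ ∫ (θ : ℝ) in 0..2 * π, ‖g (circleMap 0 R θ)‖ := by
      apply intervalIntegral.norm_integral_le_integral_norm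
      positivity
    rw [smul_eq_mul, Real.norm_of_nonneg (by positivity)]
    exact mul_le_mul_of_nonneg_left h4 (by positivity)
  set c := ‖circleAverage g 0 R‖ with hcd
  rcases (norm_nonneg (circleAverage g 0 R)).eq_or_lt with h0 | h0
  · rw [hcd, ← h0, Real.zero_rpow hp0.ne']
    apply circleAverage_nonneg_of_nonneg
    intro z _
    exact Real.rpow_nonneg (norm_nonneg _) _
  · rw [← hcd] at h0
    have hlin : circleAverage (fun z => (p * c ^ (p - 1)) • ‖g z‖ + (c ^ p - p * c ^ (p - 1) * c)) 0 R =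
        (p * c ^ (p - 1)) * circleAverage (fun z => ‖g z‖) 0 R + (c ^ p - p * c ^ (p - 1) * c) := by
      rw [circleAverage_fun_add]
      · rw [circleAverage_fun_smul, circleAverage_const, smul_eq_mul]
      · exact hi1.const_fun_smul
      · exact circleIntegrable_const _ _ _
    have hle : circleAverage (fun z => (p * c ^ (p - 1)) • ‖g z‖ + (c ^ p - p * c ^ (p - 1) * c)) 0 R ≤
        circleAverage (fun z => ‖g z‖ ^ p) 0 R := by
      apply circleAverage_mono _ hi2
      · intro z _
        have hb := one_add_mul_self_le_rpow_one_add (s := ‖g z‖ / c - 1) (by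
          have : 0 ≤ ‖g z‖ / c := by positivity
          linarith) hp
        have e1 : 1 + (‖g z‖ / c - 1) = ‖g z‖ / c := by ring
        rw [e1, Real.div_rpow (norm_nonneg _) h0.le, le_div_iff₀ (Real.rpow_pos_of_pos h0 _)] at hb
        have e2 : c ^ p = c ^ (p - 1) * c := by rw [Real.rpow_sub_one h0.ne']; field_simp
        have e3 : (1 + p * (‖g z‖ / c - 1)) * c ^ p = (p * c ^ (p - 1)) • ‖g z‖ + (c ^ p - p * c ^ (p - 1) * c) := by
          rw [e2, smul_eq_mul]; field_simp; ring
        rw [e3] at hb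
        exact hb
      · exact (hi1.const_fun_smul).add (circleIntegrable_const _ _ _)
    rw [hlin] at hle
    have h5 : 0 ≤ p * c ^ (p - 1) := by positivity
    have h6 := mul_le_mul_of_nonneg_left hm h5
    linarith

/-- The generating function. -/
def GF (y : ℝ) (s : ℂ) : ℂ := Complex.exp (s * y - s ^ 2 / 2)

lemma GF_diff (y : ℝ) : Differentiable ℂ (GF y) := by
  unfold GF; fun_prop

lemma GF_hasDerivAt (y : ℝ) (s : ℂ) : HasDerivAt (GF y) (((y : ℂ) - s) * GF y s) s := by
  have h1 : HasDerivAt (fun s : ℂ => s * y - s ^ 2 / 2) ((y : ℂ) - s) s := by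
    have a1 : HasDerivAt (fun s : ℂ => s * (y : ℂ)) (y : ℂ) s := by
      simpa using (hasDerivAt_id s).mul_const (y : ℂ)
    have a2 : HasDerivAt (fun s : ℂ => s ^ 2 / 2) s s := by
      have := (hasDerivAt_pow 2 s).div_const 2
      simpa using this
    exact a1.sub a2
  have h2 := h1.cexp
  unfold GF
  convert! h2 using 1
  ring

lemma iteratedDeriv_GF (y : ℝ) (n : ℕ) : iteratedDeriv n (GF y) =
    fun s => (Polynomial.aeval ((y : ℂ) - s) (Polynomial.hermite n)) * GF y s := by
  induction n with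
  | zero => funext s; simp
  | succ n ih =>
    rw [iteratedDeriv_succ, ih]
    funext s
    have h1 : HasDerivAt (fun s : ℂ => (y : ℂ) - s) (-1) s := by
      simpa using (hasDerivAt_id s).const_sub (y : ℂ)
    have h2 := (Polynomial.hasDerivAt_aeval (Polynomial.hermite n) ((y : ℂ) - s)).comp s h1
    have h3 := h2.mul (GF_hasDerivAt y s)
    have h4 := h3.deriv
    simp only [Function.comp_def] at h4
    refine Eq.trans ?_ (h4.trans ?_)
    · rfl
    · rw [Polynomial.hermite_succ]
      simp only [map_sub, map_mul, Polynomial.aeval_X]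
      ring

/-- The coefficients `He_n(y)/n!`. -/
def hp (n : ℕ) : Polynomial ℝ := Polynomial.C ((n.factorial : ℝ)⁻¹) * (Polynomial.hermite n).map (Int.castRingHom ℝ)

lemma hp_natDegree (n : ℕ) : (hp n).natDegree ≤ n := by
  unfold hp
  refine (Polynomial.natDegree_C_mul_le _ _).trans ?_
  refine Polynomial.natDegree_map_le.trans ?_
  rw [Polynomial.natDegree_hermite]

lemma hp_eval (n : ℕ) (y : ℝ) : (((hp n).eval y : ℝ) : ℂ) = ((n.factorial : ℂ))⁻¹ * iteratedDeriv n (GF y) 0 := by
  rw [iteratedDeriv_GF]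
  unfold hp
  simp only [sub_zero]
  have h1 : GF y 0 = 1 := by simp [GF]
  rw [h1, mul_one, Polynomial.eval_mul, Polynomial.eval_C, Complex.ofReal_mul]
  congr 1
  · push_cast; rfl
  · rw [Polynomial.eval_map, Polynomial.aeval_def]
    have h2 := Polynomial.hom_eval₂ (Polynomial.hermite n) (Int.castRingHom ℝ) Complex.ofRealHom y
    simp only [Complex.ofRealHom_eq_coe] at h2
    rw [h2]
    congr 1

lemma taylor (y z : ℝ) : HasSum (fun n : ℕ => z ^ n * (hp n).eval y) (Real.exp (z * y - z ^ 2 / 2)) := by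
  have h := Complex.hasSum_taylorSeries_of_entire (GF_diff y) 0 (z : ℂ)
  have e : (fun n : ℕ => ((n.factorial : ℂ))⁻¹ • ((z : ℂ) - 0) ^ n • iteratedDeriv n (GF y) 0) =
      fun n : ℕ => ((z ^ n * (hp n).eval y : ℝ) : ℂ) := by
    funext n
    rw [Complex.ofReal_mul, hp_eval, sub_zero, smul_eq_mul, smul_eq_mul, Complex.ofReal_pow]
    ring
  have e2 : GF y z = ((Real.exp (z * y - z ^ 2 / 2) : ℝ) : ℂ) := by
    unfold GF
    rw [Complex.ofReal_exp]
    congr 1
    push_cast
    ring
  rw [e, e2] at h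
  exact Complex.hasSum_ofReal.1 h

lemma iteratedDeriv_average {f : ℂ → ℂ} (hf : Differentiable ℂ f) (n : ℕ) {R : ℝ} (hR : 0 < R) :
    ((n.factorial : ℂ))⁻¹ * iteratedDeriv n f 0 = circleAverage (fun z => (z ^ n)⁻¹ * f z) 0 R := by
  have h := DiffContOnCl.circleIntegral_one_div_sub_center_pow_smul (c := 0) hR n (hf.diffContOnCl (s := ball 0 R))
  rw [circleAverage_eq_circleIntegral hR.ne']
  have e : (fun z : ℂ => (z - 0)⁻¹ • ((z ^ n)⁻¹ * f z)) = fun z => (1 / (z - 0) ^ (n + 1)) • f z := by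
    funext z
    rw [sub_zero, smul_eq_mul, smul_eq_mul, pow_succ, one_div, mul_inv]
    ring
  rw [e, h, smul_eq_mul, smul_eq_mul]
  have h1 : (2 * π * I : ℂ) ≠ 0 := two_pi_I_ne_zero
  have h2 : ((n.factorial : ℂ)) ≠ 0 := by exact_mod_cast n.factorial_ne_zero
  field_simp

lemma norm_GF (y : ℝ) (z : ℂ) : ‖GF y z‖ = Real.exp (z.re * y - (z.re ^ 2 - z.im ^ 2) / 2) := by
  unfold GF
  rw [Complex.norm_exp]
  congr 1
  rw [pow_two]
  simp only [sub_re, mul_re, ofReal_re, ofReal_im, mul_zero, sub_zero]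
  have : ((z * z) / 2).re = (z.re * z.re - z.im * z.im) / 2 := by
    rw [Complex.div_re]
    simp
    ring
  rw [this]
  ring

/-- coefficient bound -/
lemma coeff_bound (hp1 : 1 ≤ p) (n : ℕ) (y : ℝ) {R : ℝ} (hR : 0 < R) :
    |(hp n).eval y| ^ p ≤ circleAverage (fun z => (R ^ n)⁻¹ ^ p * ‖GF y z‖ ^ p) 0 R := by
  have h1 : ‖(((hp n).eval y : ℝ) : ℂ)‖ = |(hp n).eval y| := by
    rw [Complex.norm_real, Real.norm_eq_abs]
  rw [← h1, hp_eval, iteratedDeriv_average (GF_diff y) n hR]
  have hne : ∀ z ∈ sphere (0:ℂ) |R|, z ≠ 0 := by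
    intro z hz h0
    rw [h0] at hz
    simp at hz
    rw [abs_of_pos hR] at hz
    exact hR.ne hz
  refine (jensen_circle hp1 ?_).trans (le_of_eq ?_)
  · apply ContinuousOn.mul
    · apply ContinuousOn.inv₀ (by fun_prop)
      intro z hz
      exact pow_ne_zero n (hne z hz)
    · exact (GF_diff y).continuous.continuousOn
  · apply circleAverage_congr_sphere
    intro z hz
    have hz1 : ‖z‖ = R := by simpa [abs_of_pos hR] using hz
    simp only
    rw [norm_mul, norm_inv, norm_pow, hz1, Real.mul_rpow (by positivity) (norm_nonneg _)]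

end

end Pool.Agent.H457HC
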