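import Mathlib
import Pool.Agent.H457HC.Gen

open Complex Metric Finset Real Filter Topology

namespace Pool.Agent.H457HC

noncomputable section

variable {p q : ℝ}

/-- the point at which the Hermite polynomials are evaluated -/
def yy (p : ℝ) (n : ℕ) (x : Cube n) : ℝ := Real.sqrt (2 / p) * XX n x

lemma mean_exp_yy (hp : 0 < p) (n : ℕ) (t : ℝ) : mean (fun x : Cube n => Real.exp (t * yy p n x)) =
    Real.cosh (t * Real.sqrt (2 / p) / Real.sqrt n) ^ n := by
  rw [← mean_exp]
  congr 1
  funext x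
  congr 1
  unfold yy
  ring

lemma mean_exp_le (hp : 0 < p) (n : ℕ) (t : ℝ) : mean (fun x : Cube n => Real.exp (t * yy p n x)) ≤
    Real.exp (t ^ 2 / p) := by
  rw [mean_exp_yy hp]
  rcases Nat.eq_zero_or_pos n with h0 | h0
  · subst h0
    rw [pow_zero]
    apply Real.one_le_exp
    positivity
  · have h1 := Real.cosh_le_exp_half_sq (t * Real.sqrt (2 / p) / Real.sqrt n)
    have h2 : (t * Real.sqrt (2 / p) / Real.sqrt n) ^ 2 / 2 = (t ^ 2 / p) / n := by
      rw [div_pow, mul_pow, Real.sq_sqrt (by positivity), Real.sq_sqrt (by positivity)]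
      field_simp
    rw [h2] at h1
    calc Real.cosh (t * Real.sqrt (2 / p) / Real.sqrt n) ^ n ≤ Real.exp ((t ^ 2 / p) / n) ^ n :=
          pow_le_pow_left₀ (Real.cosh_pos _).le h1 n
      _ = Real.exp (n * ((t ^ 2 / p) / n)) := by rw [← Real.exp_nat_mul]
      _ = Real.exp (t ^ 2 / p) := by
          congr 1
          have : (n : ℝ) ≠ 0 := by positivity
          field_simp

lemma half_sq_le_cosh (x : ℝ) : 1 + x ^ 2 / 2 ≤ Real.cosh x := by
  have h1 : Real.cosh x = 1 + 2 * Real.sinh (x / 2) ^ 2 := by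
    have h2 := Real.cosh_two_mul (x / 2)
    have h3 := Real.cosh_sq (x / 2)
    rw [show 2 * (x / 2) = x by ring] at h2
    linarith
  have h2 : (x / 2) ^ 2 ≤ Real.sinh (x / 2) ^ 2 := by
    rw [sq_le_sq]
    rcases le_total 0 (x / 2) with h | h
    · have := Real.self_le_sinh_iff.2 h
      rw [abs_of_nonneg h, abs_of_nonneg (h.trans this)]
      exact this
    · have := Real.sinh_le_self_iff.2 h
      rw [abs_of_nonpos h, abs_of_nonpos (this.trans h)]
      linarith
  rw [h1]
  linarith

/-- bound of the coefficients in `L^p` -/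
lemma lp_coeff (hp1 : 1 ≤ p) (n d : ℕ) {R : ℝ} (hR : 0 < R) :
    lpNorm p (fun x : Cube n => (hp d).eval (yy p n x)) ≤ (R ^ d)⁻¹ * Real.exp (R ^ 2 / 2) := by
  have hp0 : 0 < p := by linarith
  have hci : ∀ y : ℝ, CircleIntegrable (fun z => (R ^ d)⁻¹ ^ p * ‖GF y z‖ ^ p) 0 R := by
    intro y
    apply ContinuousOn.circleIntegrable'
    apply ContinuousOn.mul continuousOn_const
    apply ContinuousOn.rpow_const
    · exact (GF_diff y).continuous.continuousOn.norm
    · intro x _
      exact Or.inr hp0.le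
  have h1 : mean (fun x : Cube n => |(hp d).eval (yy p n x)| ^ p) ≤
      circleAverage (fun z => ∑ x : Cube n, (1 / 2 ^ n : ℝ) • ((R ^ d)⁻¹ ^ p * ‖GF (yy p n x) z‖ ^ p)) 0 R := by
    rw [circleAverage_fun_sum (fun x _ => (hci (yy p n x)).const_fun_smul)]
    unfold mean
    rw [Finset.sum_div]
    apply Finset.sum_le_sum
    intro x _
    rw [circleAverage_fun_smul, smul_eq_mul, div_eq_inv_mul, one_div]
    exact mul_le_mul_of_nonneg_left (coeff_bound hp1 d _ hR) (by positivity)
  have h2 : circleAverage (fun z => ∑ x : Cube n, (1 / 2 ^ n : ℝ) • ((R ^ d)⁻¹ ^ p * ‖GF (yy p n x) z‖ ^ p)) 0 R ≤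
      (R ^ d)⁻¹ ^ p * Real.exp (p * (R ^ 2 / 2)) := by
    apply circleAverage_mono_on_of_le_circle
    · have := CircleIntegrable.sum (Finset.univ : Finset (Cube n)) (c := 0) (R := R)
        (f := fun x z => (1 / 2 ^ n : ℝ) • ((R ^ d)⁻¹ ^ p * ‖GF (yy p n x) z‖ ^ p))
        (fun x _ => (hci (yy p n x)).const_fun_smul)
      convert! this using 1
      funext z
      simp
    · intro z hz
      have hz1 : ‖z‖ = R := by simpa [abs_of_pos hR] using hz
      have hz2 : z.re ^ 2 + z.im ^ 2 = R ^ 2 := by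
        rw [← hz1, ← Complex.normSq_eq_norm_sq, Complex.normSq_apply]
        ring
      have e1 : ∀ x : Cube n, (1 / 2 ^ n : ℝ) • ((R ^ d)⁻¹ ^ p * ‖GF (yy p n x) z‖ ^ p) =
          ((R ^ d)⁻¹ ^ p * Real.exp (-(p * ((z.re ^ 2 - z.im ^ 2) / 2)))) *
            (Real.exp ((p * z.re) * yy p n x) / 2 ^ n) := by
        intro x
        rw [norm_GF, ← Real.exp_mul, smul_eq_mul]
        have : (z.re * yy p n x - (z.re ^ 2 - z.im ^ 2) / 2) * p =
            -(p * ((z.re ^ 2 - z.im ^ 2) / 2)) + (p * z.re) * yy p n x := by ring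
        rw [this, Real.exp_add]
        ring
      simp only [e1]
      rw [← Finset.mul_sum, ← Finset.sum_div]
      have h3 := mean_exp_le hp0 n (p * z.re)
      unfold mean at h3
      have h4 : (p * z.re) ^ 2 / p = p * z.re ^ 2 := by field_simp
      rw [h4] at h3
      have h5 : 0 ≤ ((R ^ d)⁻¹ ^ p * Real.exp (-(p * ((z.re ^ 2 - z.im ^ 2) / 2)))) := by positivity
      refine (mul_le_mul_of_nonneg_left h3 h5).trans (le_of_eq ?_)
      rw [mul_assoc, ← Real.exp_add]
      congr 2
      rw [← hz2]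
      ring
  have h3 := h1.trans h2
  have h4 : (R ^ d)⁻¹ ^ p * Real.exp (p * (R ^ 2 / 2)) = ((R ^ d)⁻¹ * Real.exp (R ^ 2 / 2)) ^ p := by
    rw [Real.mul_rpow (by positivity) (by positivity), ← Real.exp_mul]
    congr 2
    ring
  rw [h4, ← lpNorm_rpow hp0] at h3
  exact (Real.rpow_le_rpow_iff (lpNorm_nonneg _ _) (by positivity) hp0).1 h3

lemma lpNorm_add_le (hq : 1 ≤ q) {n : ℕ} (f g : Cube n → ℝ) :
    lpNorm q (fun x => f x + g x) ≤ lpNorm q f + lpNorm q g := by
  have hq0 : 0 < q := by linarith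
  have h := Real.Lp_add_le (Finset.univ : Finset (Cube n)) f g hq
  have e : ∀ u : Cube n → ℝ, lpNorm q u = (∑ x, |u x| ^ q) ^ (1 / q) / ((2:ℝ) ^ n) ^ (1 / q) := by
    intro u
    unfold lpNorm mean
    rw [Real.div_rpow (Finset.sum_nonneg fun _ _ => Real.rpow_nonneg (abs_nonneg _) _) (by positivity)]
  rw [e, e, e, ← add_div]
  exact div_le_div_of_nonneg_right h (by positivity)

lemma lpNorm_const_mul (hq : 0 < q) {n : ℕ} (c : ℝ) (f : Cube n → ℝ) :
    lpNorm q (fun x => c * f x) = |c| * lpNorm q f := by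
  unfold lpNorm
  have : (fun x => |c * f x| ^ q) = fun x => |c| ^ q * |f x| ^ q := by
    funext x
    rw [abs_mul, Real.mul_rpow (abs_nonneg _) (abs_nonneg _)]
  rw [this, mean_const_mul, Real.mul_rpow (by positivity) (mean_nonneg fun _ => Real.rpow_nonneg (abs_nonneg _) _),
    ← Real.rpow_mul (abs_nonneg _)]
  have e : q * (1 / q) = 1 := by field_simp
  rw [e, Real.rpow_one]

lemma lpNorm_sum_le (hq : 1 ≤ q) {n : ℕ} (F : ℕ → Cube n → ℝ) (N : ℕ) :
    lpNorm q (fun x => ∑ d ∈ range N, F d x) ≤ ∑ d ∈ range N, lpNorm q (F d) := by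
  have hq0 : 0 < q := by linarith
  induction N with
  | zero =>
    simp only [range_zero, sum_empty]
    unfold lpNorm mean
    simp only [abs_zero, Real.zero_rpow hq0.ne', Finset.sum_const_zero, zero_div]
    rw [Real.zero_rpow]
    positivity
  | succ N ih =>
    simp only [Finset.sum_range_succ]
    exact (lpNorm_add_le hq _ _).trans (add_le_add ih le_rfl)

/-- The lower bound: an admissible constant is at least `√(2q/p - 1)`. -/
theorem lower_bound (hp1 : 1 ≤ p) (hpq : p < q) {C : ℝ} (hC : 1 ≤ C)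
    (h : ∀ n : ℕ, 1 ≤ n → ∀ f : Cube n → ℝ, lpNorm q f ≤ C ^ degree f * lpNorm p f) :
    Real.sqrt (2 * q / p - 1) ≤ C := by
  by_contra hlt
  push Not at hlt
  have hp0 : 0 < p := by linarith
  have hq0 : 0 < q := by linarith
  obtain ⟨κ, hκ1, hκ2⟩ := exists_between hlt
  have hκ0 : 0 < κ := by linarith
  have hM : κ ^ 2 < 2 * q / p - 1 := by
    rw [Real.lt_sqrt hκ0.le] at hκ2
    exact hκ2
  set M := 2 * q / p - 1 with hMd
  have hr0 : 0 ≤ C / κ := by positivity
  have hr1 : C / κ < 1 := by rw [div_lt_one hκ0]; exact hκ1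
  set K := (1 - C / κ)⁻¹ with hK
  have hK0 : 0 < K := by rw [hK]; apply inv_pos.2; linarith
  -- main estimate
  have main : ∀ z : ℝ, 0 < z → ∀ n : ℕ, 1 ≤ n →
      lpNorm q (fun x : Cube n => Real.exp (z * yy p n x - z ^ 2 / 2)) ≤ Real.exp ((κ * z) ^ 2 / 2) * K := by
    intro z hz n hn
    have hR : 0 < κ * z := by positivity
    have hterm : ∀ d : ℕ, lpNorm q (fun x : Cube n => z ^ d * (hp d).eval (yy p n x)) ≤
        (C / κ) ^ d * Real.exp ((κ * z) ^ 2 / 2) := by
      intro d
      rw [lpNorm_const_mul hq0, abs_of_pos (pow_pos hz d)]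
      have h1 := h n hn (fun x : Cube n => (hp d).eval (yy p n x))
      have hdeg : degree (fun x : Cube n => (hp d).eval (yy p n x)) ≤ d := by
        have h2 := degree_poly_le n ((hp d).comp (Polynomial.C (Real.sqrt (2 / p)) * Polynomial.X))
        have h3 : (fun x : Cube n => ((hp d).comp (Polynomial.C (Real.sqrt (2 / p)) * Polynomial.X)).eval (XX n x)) =
            (fun x : Cube n => (hp d).eval (yy p n x)) := by
          funext x
          rw [Polynomial.eval_comp]
          simp [yy]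
        rw [h3] at h2
        refine h2.trans ?_
        refine Polynomial.natDegree_comp_le.trans ?_
        have h4 : (Polynomial.C (Real.sqrt (2 / p)) * Polynomial.X : Polynomial ℝ).natDegree ≤ 1 :=
          (Polynomial.natDegree_C_mul_le _ _).trans Polynomial.natDegree_X_le
        calc (hp d).natDegree * _ ≤ d * 1 := Nat.mul_le_mul (hp_natDegree d) h4
          _ = d := mul_one d
      have h5 : C ^ degree (fun x : Cube n => (hp d).eval (yy p n x)) ≤ C ^ d := pow_le_pow_right₀ hC hdeg
      have h6 := lp_coeff hp1 n d hR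
      calc z ^ d * lpNorm q (fun x : Cube n => (hp d).eval (yy p n x)) ≤
          z ^ d * (C ^ d * ((((κ * z) ^ d)⁻¹) * Real.exp ((κ * z) ^ 2 / 2))) := by
            apply mul_le_mul_of_nonneg_left _ (by positivity)
            refine h1.trans ?_
            exact mul_le_mul h5 h6 (lpNorm_nonneg _ _) (by positivity)
        _ = (C / κ) ^ d * Real.exp ((κ * z) ^ 2 / 2) := by
            rw [mul_pow, div_pow]
            field_simp
    have hsum : ∀ N : ℕ, lpNorm q (fun x : Cube n => ∑ d ∈ range N, z ^ d * (hp d).eval (yy p n x)) ≤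
        Real.exp ((κ * z) ^ 2 / 2) * K := by
      intro N
      refine (lpNorm_sum_le (by linarith) _ N).trans ?_
      calc ∑ d ∈ range N, lpNorm q (fun x : Cube n => z ^ d * (hp d).eval (yy p n x)) ≤
          ∑ d ∈ range N, (C / κ) ^ d * Real.exp ((κ * z) ^ 2 / 2) := Finset.sum_le_sum fun d _ => hterm d
        _ = (∑ d ∈ range N, (C / κ) ^ d) * Real.exp ((κ * z) ^ 2 / 2) := by rw [Finset.sum_mul]
        _ ≤ K * Real.exp ((κ * z) ^ 2 / 2) := by
            apply mul_le_mul_of_nonneg_right _ (by positivity)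
            have hs := hasSum_geometric_of_lt_one hr0 hr1
            exact sum_le_hasSum _ (fun i _ => pow_nonneg hr0 i) hs
        _ = _ := mul_comm _ _
    have hlim : Tendsto (fun N : ℕ => lpNorm q (fun x : Cube n => ∑ d ∈ range N, z ^ d * (hp d).eval (yy p n x)))
        atTop (𝓝 (lpNorm q (fun x : Cube n => Real.exp (z * yy p n x - z ^ 2 / 2)))) := by
      unfold lpNorm mean
      apply Tendsto.rpow_const
      · apply Tendsto.div_const
        apply tendsto_finsetSum
        intro x _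
        apply Tendsto.rpow_const
        · apply Tendsto.abs
          exact (taylor (yy p n x) z).tendsto_sum_nat
        · exact Or.inr hq0.le
      · exact Or.inr (by positivity)
    exact le_of_tendsto hlim (Eventually.of_forall hsum)
  -- letting n tend to infinity
  have main2 : ∀ z : ℝ, 0 < z → Real.exp (q * (z ^ 2 * M / 2)) ≤ (Real.exp ((κ * z) ^ 2 / 2) * K) ^ q := by
    intro z hz
    set u := q * z * Real.sqrt (2 / p) with hu
    have hu2 : u ^ 2 / 2 = q ^ 2 * z ^ 2 / p := by
      rw [hu, mul_pow, mul_pow, Real.sq_sqrt (by positivity)]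
      field_simp
    have hl : Tendsto (fun n : ℕ => Real.exp (-(q * (z ^ 2 / 2))) * (1 + (u ^ 2 / 2) / (n : ℝ)) ^ n) atTop
        (𝓝 (Real.exp (-(q * (z ^ 2 / 2))) * Real.exp (u ^ 2 / 2))) :=
      (Real.tendsto_one_add_div_pow_exp (u ^ 2 / 2)).const_mul _
    have he : Real.exp (-(q * (z ^ 2 / 2))) * Real.exp (u ^ 2 / 2) = Real.exp (q * (z ^ 2 * M / 2)) := by
      rw [← Real.exp_add, hu2, hMd]
      congr 1
      field_simp
      ring
    rw [he] at hl
    refine le_of_tendsto hl ?_
    filter_upwards [eventually_ge_atTop 1] with n hn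
    have h1 := main z hz n hn
    have h2 := Real.rpow_le_rpow (lpNorm_nonneg _ _) h1 hq0.le
    rw [lpNorm_rpow hq0] at h2
    refine le_trans ?_ h2
    have h3 : (fun x : Cube n => |Real.exp (z * yy p n x - z ^ 2 / 2)| ^ q) =
        fun x => Real.exp (-(q * (z ^ 2 / 2))) * Real.exp ((q * z) * yy p n x) := by
      funext x
      rw [abs_of_pos (Real.exp_pos _), ← Real.exp_mul, ← Real.exp_add]
      congr 1
      ring
    rw [h3, mean_const_mul, mean_exp_yy hp0]
    apply mul_le_mul_of_nonneg_left _ (by positivity)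
    apply pow_le_pow_left₀ (by positivity)
    refine le_trans (le_of_eq ?_) (half_sq_le_cosh _)
    rw [← hu, div_pow, Real.sq_sqrt (by positivity)]
    field_simp
  -- letting z tend to infinity
  set δ := M - κ ^ 2 with hδ
  have hδ0 : 0 < δ := by rw [hδ]; linarith
  set L := K ^ q with hL
  have hL0 : 0 < L := by positivity
  set z := Real.sqrt (2 * L / (q * δ)) with hz
  have hz0 : 0 < z := by rw [hz]; positivity
  have hz2 : z ^ 2 = 2 * L / (q * δ) := by rw [hz, Real.sq_sqrt (by positivity)]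
  have h1 := main2 z hz0
  rw [Real.mul_rpow (by positivity) hK0.le, ← Real.exp_mul] at h1
  have h2 : Real.exp (q * (z ^ 2 * M / 2)) = Real.exp ((κ * z) ^ 2 / 2 * q) * Real.exp L := by
    rw [← Real.exp_add]
    congr 1
    have : L = q * δ * z ^ 2 / 2 := by rw [hz2]; field_simp
    rw [this, hδ]
    ring
  rw [h2] at h1
  have h3 := le_of_mul_le_mul_left h1 (Real.exp_pos _)
  have h4 := Real.add_one_le_exp L
  linarith

end

end Pool.Agent.H457HC
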